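import Pool.Agent.W_1b8d5d_LE.One
import Pool.Agent.W_7d29a1_LE.LeG

/-!
MP_1b8d5d_pr, track P, row 627 section 1 (paper: helper7): THE DOUBLING INEQUALITY AT ZERO TEMPERATURE. The induction over the
coordinates (adapted from helper84's `W_7d29a1_LE`). (helper57)
-/

namespace Pool.Agent.W_1b8d5d_LE

open MeasureTheory Set
open Pool.Agent.W_7d29a1_h47 (EM)
open Pool.Agent.W_7d29a1_t2 (mp_cons measurable_cons measurable_inner)
open Pool.Agent.W_7d29a1_LE (G1 G1.of_le G1.mono G1.const G1.abs_sub G1.exp_abs Gr Gr.of_le Gr.const Gr.fubini Gr.inner ZZ EE Z1 E1 Gd psi sum_abs_nonneg sum_abs_cons tangent)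

noncomputable section

/-- A jointly convex function with a measurable subgradient in `[0, 1]`. -/
structure Pot0 {N : ℕ} (F : (Fin N → ℝ) → ℝ) (D : Fin N → (Fin N → ℝ) → ℝ) : Prop where
  measF : Measurable F
  measD : ∀ i, Measurable (D i)
  D0 : ∀ i x, 0 ≤ D i x
  D1 : ∀ i x, D i x ≤ 1
  cvx : ∀ x a, F x + ∑ i, D i x * (a i - x i) ≤ F a

variable {N : ℕ}

lemma Pot0.slice {F : (Fin (N + 1) → ℝ) → ℝ} {D : Fin (N + 1) → (Fin (N + 1) → ℝ) → ℝ} (h : Pot0 F D) (r : ℝ) :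
    Pot0 (fun x : Fin N → ℝ => F (Fin.cons r x : Fin (N + 1) → ℝ))
      (fun (i : Fin N) (x : Fin N → ℝ) => D i.succ (Fin.cons r x : Fin (N + 1) → ℝ)) := by
  have hm : Measurable fun x : Fin N → ℝ => (Fin.cons r x : Fin (N + 1) → ℝ) :=
    measurable_cons.comp measurable_prodMk_left
  refine ⟨h.measF.comp hm, fun i => (h.measD _).comp hm, fun i x => h.D0 _ _, fun i x => h.D1 _ _,
    fun x a => ?_⟩
  have h1 := h.cvx (Fin.cons r x : Fin (N + 1) → ℝ) (Fin.cons r a : Fin (N + 1) → ℝ)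
  rw [Fin.sum_univ_succ] at h1
  simp only [Fin.cons_zero, Fin.cons_succ, sub_self, mul_zero, zero_add] at h1
  exact h1

section first

variable {F : (Fin (N + 1) → ℝ) → ℝ} {D : Fin (N + 1) → (Fin (N + 1) → ℝ) → ℝ}

lemma Pot0.lo0 (h : Pot0 F D) (x : Fin N → ℝ) (s t : ℝ) :
    D 0 (Fin.cons s x : Fin (N + 1) → ℝ) * (t - s) ≤
      F (Fin.cons t x : Fin (N + 1) → ℝ) - F (Fin.cons s x : Fin (N + 1) → ℝ) := by
  have h1 := h.cvx (Fin.cons s x : Fin (N + 1) → ℝ) (Fin.cons t x : Fin (N + 1) → ℝ)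
  rw [Fin.sum_univ_succ] at h1
  simp only [Fin.cons_zero, Fin.cons_succ, sub_self, mul_zero, Finset.sum_const_zero, add_zero] at h1
  linarith

end first

lemma Pot0.GrF {F : (Fin N → ℝ) → ℝ} {D : Fin N → (Fin N → ℝ) → ℝ} (h : Pot0 F D) : Gr F := by
  have hk : ∀ x y : Fin N → ℝ, |∑ i, D i x * y i| ≤ ∑ i, |y i| := by
    intro x y
    refine (Finset.abs_sum_le_sum_abs _ _).trans (Finset.sum_le_sum fun i _ => ?_)
    rw [abs_mul, abs_of_nonneg (h.D0 i x)]
    calc D i x * |y i| ≤ 1 * |y i| := mul_le_mul_of_nonneg_right (h.D1 i x) (abs_nonneg _)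
      _ = |y i| := one_mul _
  refine Gr.of_le h.measF (B := |F 0| + 1) (b := 1) fun x => ?_
  have h1 := h.cvx 0 x
  have h2 := h.cvx x 0
  have h3 := (abs_le.1 (hk 0 x)).1
  have h4 := (abs_le.1 (hk x x)).2
  have e1 : ∑ i, D i 0 * (x i - (0 : Fin N → ℝ) i) = ∑ i, D i 0 * x i := by simp
  have e2 : ∑ i, D i x * ((0 : Fin N → ℝ) i - x i) = -∑ i, D i x * x i := by
    rw [← Finset.sum_neg_distrib]
    apply Finset.sum_congr rfl
    intro i _
    simp
  rw [e1] at h1
  rw [e2] at h2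
  have hs := sum_abs_nonneg x
  have h5 : |F x| ≤ |F 0| + ∑ i, |x i| := by
    have h6 := neg_abs_le (F 0)
    have h7 := le_abs_self (F 0)
    rw [abs_le]
    constructor <;> linarith
  refine h5.trans ?_
  have h8 := Real.add_one_le_exp (1 * ∑ i, |x i|)
  have h9 : 1 ≤ Real.exp (1 * ∑ i, |x i|) := Real.one_le_exp (by linarith)
  nlinarith [abs_nonneg (F 0)]

lemma Pot0.GrD {F : (Fin N → ℝ) → ℝ} {D : Fin N → (Fin N → ℝ) → ℝ} (h : Pot0 F D) (i : Fin N) : Gr (D i) := by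
  refine Gr.of_le (h.measD i) (B := 1) (b := 0) fun x => ?_
  rw [abs_of_nonneg (h.D0 i x)]
  simpa using h.D1 i x

lemma Pot0.GrE {F : (Fin N → ℝ) → ℝ} {D : Fin N → (Fin N → ℝ) → ℝ} (h : Pot0 F D) {t : ℝ} (ht0 : 0 ≤ t) :
    Gr fun x => Real.exp (t * F x) := by
  have hk : ∀ x y : Fin N → ℝ, |∑ i, D i x * y i| ≤ ∑ i, |y i| := by
    intro x y
    refine (Finset.abs_sum_le_sum_abs _ _).trans (Finset.sum_le_sum fun i _ => ?_)
    rw [abs_mul, abs_of_nonneg (h.D0 i x)]
    calc D i x * |y i| ≤ 1 * |y i| := mul_le_mul_of_nonneg_right (h.D1 i x) (abs_nonneg _)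
      _ = |y i| := one_mul _
  refine Gr.of_le (Real.measurable_exp.comp (h.measF.const_mul t)) (B := Real.exp (t * |F 0|)) (b := t) fun x => ?_
  rw [abs_of_pos (Real.exp_pos _), ← Real.exp_add]
  apply Real.exp_le_exp.2
  have h2 := h.cvx x 0
  have h4 := (abs_le.1 (hk x x)).2
  have e2 : ∑ i, D i x * ((0 : Fin N → ℝ) i - x i) = -∑ i, D i x * x i := by
    rw [← Finset.sum_neg_distrib]
    apply Finset.sum_congr rfl
    intro i _
    simp
  rw [e2] at h2
  have h7 := le_abs_self (F 0)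
  have h8 : F x ≤ |F 0| + ∑ i, |x i| := by linarith
  have h9 := mul_le_mul_of_nonneg_left h8 ht0
  linarith

variable {μ : Measure ℝ} [IsProbabilityMeasure μ]

lemma ZZ_pos (hμ : EM μ) {F : (Fin N → ℝ) → ℝ} {D : Fin N → (Fin N → ℝ) → ℝ} (h : Pot0 F D) {t : ℝ}
    (ht0 : 0 ≤ t) : 0 < ZZ μ t F := by
  unfold ZZ
  exact integral_exp_pos ((h.GrE ht0).integrable hμ)

lemma EE_mul (hμ : EM μ) {F : (Fin N → ℝ) → ℝ} {D : Fin N → (Fin N → ℝ) → ℝ} (h : Pot0 F D) {t : ℝ}
    (ht0 : 0 ≤ t) (f : (Fin N → ℝ) → ℝ) :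
    EE μ t F f * ZZ μ t F = ∫ x, f x * Real.exp (t * F x) ∂(Measure.pi fun _ : Fin N => μ) := by
  unfold EE
  exact div_mul_cancel₀ _ (ZZ_pos hμ h ht0).ne'

section first

variable {F : (Fin (N + 1) → ℝ) → ℝ} {D : Fin (N + 1) → (Fin (N + 1) → ℝ) → ℝ}

lemma Z1_pos (hμ : EM μ) (h : Pot0 F D) {t : ℝ} (ht0 : 0 ≤ t) (r : ℝ) : 0 < Z1 μ t F r :=
  ZZ_pos hμ (h.slice r) ht0

lemma E1_mul (hμ : EM μ) (h : Pot0 F D) {t : ℝ} (ht0 : 0 ≤ t) (f : (Fin (N + 1) → ℝ) → ℝ) (r : ℝ) :
    E1 μ t F f r * Z1 μ t F r = ∫ x, f (Fin.cons r x : Fin (N + 1) → ℝ) *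
      Real.exp (t * F (Fin.cons r x : Fin (N + 1) → ℝ)) ∂(Measure.pi fun _ : Fin N => μ) :=
  EE_mul hμ (h.slice r) ht0 _

lemma Gd_nonneg (hμ : EM μ) (h : Pot0 F D) {t : ℝ} (ht0 : 0 ≤ t) (r : ℝ) : 0 ≤ Gd μ t F D r := by
  apply div_nonneg _ (Z1_pos hμ h ht0 r).le
  exact integral_nonneg fun x => mul_nonneg (h.D0 _ _) (Real.exp_pos _).le

lemma Gd_le_one (hμ : EM μ) (h : Pot0 F D) {t : ℝ} (ht0 : 0 ≤ t) (r : ℝ) : Gd μ t F D r ≤ 1 := by
  have h1 : Gd μ t F D r * Z1 μ t F r ≤ 1 * Z1 μ t F r := by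
    unfold Gd
    rw [E1_mul hμ h ht0, one_mul]
    apply integral_mono ((((h.GrD 0).slice r).mul ((h.slice r).GrE ht0)).integrable hμ)
      (((h.slice r).GrE ht0).integrable hμ)
    intro x
    have := mul_le_mul_of_nonneg_right (h.D1 0 (Fin.cons r x : Fin (N + 1) → ℝ))
      (Real.exp_pos (t * F (Fin.cons r x : Fin (N + 1) → ℝ))).le
    simpa using this
  exact le_of_mul_le_mul_right h1 (Z1_pos hμ h ht0 r)

/-- The logarithm of the partition function lies above its tangents. -/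
lemma Z1_ge (hμ : EM μ) (h : Pot0 F D) {t : ℝ} (ht0 : 0 ≤ t) (r s : ℝ) :
    Real.exp (t * Gd μ t F D r * (s - r)) * Z1 μ t F r ≤ Z1 μ t F s := by
  set c := t * Gd μ t F D r * (s - r) with hc
  have gE := (h.slice r).GrE ht0
  have gDE := ((h.GrD 0).slice r).mul gE
  have h1 : ∫ x, Real.exp c * (1 - c) * Real.exp (t * F (Fin.cons r x : Fin (N + 1) → ℝ)) +
      Real.exp c * (t * (s - r)) * (D 0 (Fin.cons r x : Fin (N + 1) → ℝ) *
        Real.exp (t * F (Fin.cons r x : Fin (N + 1) → ℝ))) ∂(Measure.pi fun _ : Fin N => μ) ≤ Z1 μ t F s := by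
    apply integral_mono
    · exact (((Gr.const _).mul gE).add ((Gr.const _).mul gDE)).integrable hμ
    · exact ((h.slice s).GrE ht0).integrable hμ
    · intro x
      have h2 := h.lo0 x r s
      set u := t * (D 0 (Fin.cons r x : Fin (N + 1) → ℝ) * (s - r)) with hu
      have h3 : Real.exp (t * F (Fin.cons r x : Fin (N + 1) → ℝ)) * Real.exp u ≤
          Real.exp (t * F (Fin.cons s x : Fin (N + 1) → ℝ)) := by
        rw [← Real.exp_add]
        apply Real.exp_le_exp.2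
        nlinarith
      refine le_trans ?_ h3
      have h4 := mul_le_mul_of_nonneg_left (tangent u c)
        (Real.exp_pos (t * F (Fin.cons r x : Fin (N + 1) → ℝ))).le
      refine le_trans (le_of_eq ?_) h4
      rw [hu]
      ring
  rw [integral_add (((Gr.const _).mul gE).integrable hμ) (((Gr.const _).mul gDE).integrable hμ),
    integral_const_mul, integral_const_mul, ← E1_mul hμ h ht0 (D 0) r] at h1
  have e1 : ∫ x, Real.exp (t * F (Fin.cons r x : Fin (N + 1) → ℝ)) ∂(Measure.pi fun _ : Fin N => μ) =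
      Z1 μ t F r := rfl
  rw [e1] at h1
  refine le_trans (le_of_eq ?_) h1
  have e2 : E1 μ t F (D 0) r = Gd μ t F D r := rfl
  rw [e2]
  have e3 : Real.exp c * (t * (s - r)) * (Gd μ t F D r * Z1 μ t F r) = Real.exp c * c * Z1 μ t F r := by
    rw [hc]
    ring
  rw [e3]
  ring

lemma log_Z1_ge (hμ : EM μ) (h : Pot0 F D) {t : ℝ} (ht0 : 0 ≤ t) (r s : ℝ) :
    t * Gd μ t F D r * (s - r) ≤ Real.log (Z1 μ t F s) - Real.log (Z1 μ t F r) := by
  have h1 := Real.log_le_log (mul_pos (Real.exp_pos _) (Z1_pos hμ h ht0 r)) (Z1_ge hμ h ht0 r s)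
  rw [Real.log_mul (Real.exp_pos _).ne' (Z1_pos hμ h ht0 r).ne', Real.log_exp] at h1
  linarith

lemma abs_log_Z1 (hμ : EM μ) (h : Pot0 F D) {t : ℝ} (ht0 : 0 ≤ t) (r s : ℝ) :
    |Real.log (Z1 μ t F r) - Real.log (Z1 μ t F s)| ≤ t * |r - s| := by
  have key : ∀ {a b : ℝ}, a ≤ b → Real.log (Z1 μ t F a) ≤ Real.log (Z1 μ t F b) ∧
      Real.log (Z1 μ t F b) ≤ Real.log (Z1 μ t F a) + t * (b - a) := by
    intro a b hab
    have h1 := log_Z1_ge hμ h ht0 a b
    have h2 := log_Z1_ge hμ h ht0 b a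
    have h3 : 0 ≤ t * Gd μ t F D a * (b - a) :=
      mul_nonneg (mul_nonneg ht0 (Gd_nonneg hμ h ht0 a)) (sub_nonneg.2 hab)
    have h4 := mul_le_mul_of_nonneg_right (mul_le_mul_of_nonneg_left (Gd_le_one hμ h ht0 b) ht0) (sub_nonneg.2 hab)
    constructor <;> linarith
  rcases le_total r s with hrs | hrs
  · obtain ⟨h1, h2⟩ := key hrs
    rw [abs_of_nonpos (by linarith), abs_of_nonpos (by linarith)]
    linarith
  · obtain ⟨h1, h2⟩ := key hrs
    rw [abs_of_nonneg (by linarith), abs_of_nonneg (by linarith)]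
    linarith

lemma G1_Z1 (hμ : EM μ) (h : Pot0 F D) {t : ℝ} (ht0 : 0 ≤ t) : G1 (Z1 μ t F) :=
  Gr.inner hμ (h.GrE ht0)

lemma G1_logZ (hμ : EM μ) (h : Pot0 F D) {t : ℝ} (ht0 : 0 ≤ t) :
    G1 fun r => Real.log (Z1 μ t F r) := by
  refine G1.mono (Real.measurable_log.comp (G1_Z1 hμ h ht0).meas)
    (((G1.const t).mul (G1.abs_sub 0)).add (G1.const |Real.log (Z1 μ t F 0)|)) fun r => ?_
  have h1 := abs_log_Z1 hμ h ht0 r 0
  have h2 : |Real.log (Z1 μ t F r)| ≤ |Real.log (Z1 μ t F r) - Real.log (Z1 μ t F 0)| +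
      |Real.log (Z1 μ t F 0)| := by
    have := abs_add_le (Real.log (Z1 μ t F r) - Real.log (Z1 μ t F 0)) (Real.log (Z1 μ t F 0))
    simpa using this
  linarith

lemma G1_invZ (hμ : EM μ) (h : Pot0 F D) {t : ℝ} (ht0 : 0 ≤ t) :
    G1 fun r => (Z1 μ t F r)⁻¹ := by
  refine G1.mono (G1_Z1 hμ h ht0).meas.inv
    ((G1.exp_abs t 0).mul (G1.const (Real.exp (-Real.log (Z1 μ t F 0))))) fun r => ?_
  have hp := Z1_pos hμ h ht0 r
  rw [abs_of_pos (inv_pos.2 hp), ← Real.exp_add]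
  have e : (Z1 μ t F r)⁻¹ = Real.exp (-Real.log (Z1 μ t F r)) := by
    rw [Real.exp_neg, Real.exp_log hp]
  rw [e]
  apply Real.exp_le_exp.2
  have h1 := (abs_le.1 (abs_log_Z1 hμ h ht0 r 0)).1
  linarith

omit [IsProbabilityMeasure μ] in
lemma E1_eq (t : ℝ) (f : (Fin (N + 1) → ℝ) → ℝ) : E1 μ t F f = fun r => (∫ x, f (Fin.cons r x : Fin (N + 1) → ℝ) *
      Real.exp (t * F (Fin.cons r x : Fin (N + 1) → ℝ)) ∂(Measure.pi fun _ : Fin N => μ)) * (Z1 μ t F r)⁻¹ := by
  funext r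
  rw [← div_eq_mul_inv]
  rfl

lemma G1_E1 (hμ : EM μ) (h : Pot0 F D) {t : ℝ} (ht0 : 0 ≤ t) {f : (Fin (N + 1) → ℝ) → ℝ} (hf : Gr f) :
    G1 (E1 μ t F f) := by
  rw [E1_eq]
  exact (Gr.inner hμ (hf.mul (h.GrE ht0))).mul (G1_invZ hμ h ht0)

/-- The full partition function. -/
lemma ZZ_eq (hμ : EM μ) (h : Pot0 F D) {t : ℝ} (ht0 : 0 ≤ t) : ZZ μ t F = ∫ r, Z1 μ t F r ∂μ :=
  Gr.fubini hμ (h.GrE ht0)

/-- The full Gibbs mean. -/
lemma EE_eq (hμ : EM μ) (h : Pot0 F D) {t : ℝ} (ht0 : 0 ≤ t) {f : (Fin (N + 1) → ℝ) → ℝ} (hf : Gr f) :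
    EE μ t F f = ∫ r, Z1 μ t F r / (∫ u, Z1 μ t F u ∂μ) * E1 μ t F f r ∂μ := by
  unfold EE
  rw [Gr.fubini hμ (hf.mul (h.GrE ht0)), ZZ_eq hμ h ht0]
  have h1 : ∀ r, Z1 μ t F r / (∫ u, Z1 μ t F u ∂μ) * E1 μ t F f r =
      (E1 μ t F f r * Z1 μ t F r) / (∫ u, Z1 μ t F u ∂μ) := fun r => by ring
  simp_rw [h1, E1_mul hμ h ht0]
  rw [integral_div]


end first

/-- THE ENTROPY INEQUALITY: for `Φ a ≥ f x + ∇F x (a - x)` the mean of `Φ` is at least the Gibbs mean of `f` minus a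
constant times the relative entropy. -/
theorem entropy_ineq {q : ℝ → ℝ} {L r : ℝ} (hq : Qf μ q L r) {t : ℝ} (ht0 : 0 < t) (htL : t * L ≤ 1)
    (N : ℕ) : ∀ (F : (Fin N → ℝ) → ℝ) (D : Fin N → (Fin N → ℝ) → ℝ), Pot0 F D →
    ∀ Φ f : (Fin N → ℝ) → ℝ, Gr Φ → Gr f →
      (∀ x a, f x + ∑ i, D i x * (a i - x i) ≤ Φ a) →
      EE μ t F f - 6 * Real.exp 1 * L * r / t * (t * EE μ t F F - Real.log (ZZ μ t F)) ≤
        ∫ x, Φ x ∂(Measure.pi fun _ : Fin N => μ) := by
  have hμ := hq.em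
  have hr0 := hq.r0
  have hL0 := hq.L0
  obtain ⟨C, hC⟩ : ∃ C, C = 6 * Real.exp 1 * L * r := ⟨_, rfl⟩
  rw [← hC]
  induction N with
  | zero =>
    intro F D h Φ f hΦ hf hle
    have e : ∀ g : (Fin 0 → ℝ) → ℝ, ∫ x, g x ∂(Measure.pi fun _ : Fin 0 => μ) = g default := by
      intro g
      have h3 : (fun x => g x) = fun _ => g default := by
        funext x
        congr 1
        exact Subsingleton.elim _ _
      rw [h3]
      simp
    have hZ : ZZ μ t F = Real.exp (t * F default) := e _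
    have hE : ∀ g : (Fin 0 → ℝ) → ℝ, EE μ t F g = g default := by
      intro g
      unfold EE
      rw [hZ, e fun x => g x * Real.exp (t * F x)]
      have := Real.exp_pos (t * F default)
      field_simp
    rw [hE, hE, hZ, Real.log_exp, e]
    have h4 := hle default default
    rw [Finset.univ_eq_empty, Finset.sum_empty, add_zero] at h4
    have h5 : C / t * (t * F default - t * F default) = 0 := by ring
    rw [h5]
    linarith
  | succ N ih =>
    intro F D h Φ f hΦ hf hle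
    have ht0' : (0 : ℝ) ≤ t := ht0.le
    set Z := Z1 μ t F with hZ
    have hZp : ∀ r, 0 < Z r := Z1_pos hμ h ht0'
    have gZ : G1 Z := G1_Z1 hμ h ht0'
    set I := ∫ u, Z u ∂μ with hI
    have hIp : 0 < I := by
      have := ZZ_pos hμ h ht0'
      rw [ZZ_eq hμ h ht0'] at this
      exact this
    -- the conditional quantities
    set G := Gd μ t F D with hG
    have gG : G1 G := G1_E1 hμ h ht0' (h.GrD 0)
    set R : ℝ → ℝ := fun r => E1 μ t F f r - C / t * (t * E1 μ t F F r - Real.log (Z r)) with hR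
    have gEf : G1 (E1 μ t F f) := G1_E1 hμ h ht0' hf
    have gEF : G1 (E1 μ t F F) := G1_E1 hμ h ht0' h.GrF
    have glZ : G1 fun r => Real.log (Z r) := G1_logZ hμ h ht0'
    have gH : G1 fun r => t * E1 μ t F F r - Real.log (Z r) := ((G1.const t).mul gEF).sub glZ
    have gR : G1 R := gEf.sub ((G1.const (C / t)).mul gH)
    set Φb : ℝ → ℝ := fun s => ∫ x, Φ (Fin.cons s x : Fin (N + 1) → ℝ) ∂(Measure.pi fun _ : Fin N => μ) with hΦb
    have gΦb : G1 Φb := Gr.inner hμ hΦ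
    have step : ∀ r s, R r + G r * (s - r) ≤ Φb s := by
      intro r s
      have h1 := ih (fun x : Fin N → ℝ => F (Fin.cons r x : Fin (N + 1) → ℝ))
        (fun (i : Fin N) (x : Fin N → ℝ) => D i.succ (Fin.cons r x : Fin (N + 1) → ℝ)) (h.slice r)
        (fun x : Fin N → ℝ => Φ (Fin.cons s x : Fin (N + 1) → ℝ))
        (fun x : Fin N → ℝ => f (Fin.cons r x : Fin (N + 1) → ℝ) +
          D 0 (Fin.cons r x : Fin (N + 1) → ℝ) * (s - r)) (hΦ.slice s)
        ((hf.slice r).add (((h.GrD 0).slice r).mul (Gr.const (s - r)))) (by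
          intro x a
          have h2 := hle (Fin.cons r x : Fin (N + 1) → ℝ) (Fin.cons s a : Fin (N + 1) → ℝ)
          rw [Fin.sum_univ_succ] at h2
          simp only [Fin.cons_zero, Fin.cons_succ] at h2
          linarith)
      have e1 : EE μ t (fun x : Fin N → ℝ => F (Fin.cons r x : Fin (N + 1) → ℝ))
          (fun x : Fin N → ℝ => f (Fin.cons r x : Fin (N + 1) → ℝ) +
            D 0 (Fin.cons r x : Fin (N + 1) → ℝ) * (s - r)) = E1 μ t F f r + G r * (s - r) := by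
        have gE := (h.slice r).GrE ht0'
        have i1 := ((hf.slice r).mul gE).integrable hμ
        have i2 := ((((h.GrD 0).slice r).mul gE).mul (Gr.const (s - r))).integrable hμ
        have e2 : ∫ x, (f (Fin.cons r x : Fin (N + 1) → ℝ) + D 0 (Fin.cons r x : Fin (N + 1) → ℝ) * (s - r)) *
            Real.exp (t * F (Fin.cons r x : Fin (N + 1) → ℝ)) ∂(Measure.pi fun _ : Fin N => μ) =
            E1 μ t F f r * Z r + G r * Z r * (s - r) := by
          have e3 : ∀ x : Fin N → ℝ, (f (Fin.cons r x : Fin (N + 1) → ℝ) +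
              D 0 (Fin.cons r x : Fin (N + 1) → ℝ) * (s - r)) *
              Real.exp (t * F (Fin.cons r x : Fin (N + 1) → ℝ)) =
              f (Fin.cons r x : Fin (N + 1) → ℝ) * Real.exp (t * F (Fin.cons r x : Fin (N + 1) → ℝ)) +
              D 0 (Fin.cons r x : Fin (N + 1) → ℝ) * Real.exp (t * F (Fin.cons r x : Fin (N + 1) → ℝ)) *
                (s - r) := fun x => by ring
          simp_rw [e3]
          rw [integral_add i1 i2, integral_mul_const]
          have a1 := E1_mul hμ h ht0' f r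
          have a2 := E1_mul hμ h ht0' (D 0) r
          rw [← a1, ← a2]
          rfl
        have e4 : EE μ t (fun x : Fin N → ℝ => F (Fin.cons r x : Fin (N + 1) → ℝ))
          (fun x : Fin N → ℝ => f (Fin.cons r x : Fin (N + 1) → ℝ) +
            D 0 (Fin.cons r x : Fin (N + 1) → ℝ) * (s - r)) =
            (E1 μ t F f r * Z r + G r * Z r * (s - r)) / Z r := by
          rw [← e2]
          rfl
        rw [e4]
        have := (hZp r).ne'
        field_simp
      rw [e1] at h1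
      have e5 : EE μ t (fun x : Fin N → ℝ => F (Fin.cons r x : Fin (N + 1) → ℝ))
          (fun x : Fin N → ℝ => F (Fin.cons r x : Fin (N + 1) → ℝ)) = E1 μ t F F r := rfl
      have e6 : ZZ μ t (fun x : Fin N → ℝ => F (Fin.cons r x : Fin (N + 1) → ℝ)) = Z r := rfl
      rw [e5, e6] at h1
      show E1 μ t F f r - C / t * (t * E1 μ t F F r - Real.log (Z r)) + G r * (s - r) ≤ Φb s
      have e7 : ∫ x, Φ (Fin.cons s x : Fin (N + 1) → ℝ) ∂(Measure.pi fun _ : Fin N => μ) = Φb s := rfl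
      rw [e7] at h1
      linarith
    have hone := one_coord hq ht0 htL (Z := Z) (G := G) (R := R) (Φ := Φb) hZp (Gd_nonneg hμ h ht0')
      (Gd_le_one hμ h ht0') (fun x y _ => log_Z1_ge hμ h ht0' x y) (fun x y _ => by
        have h1 := log_Z1_ge hμ h ht0' y x
        show Real.log (Z1 μ t F y) - Real.log (Z1 μ t F x) ≤ t * Gd μ t F D y * (y - x)
        linarith) gG.meas gR gΦb step
    rw [← hC, ← hI] at hone
    have hfub : ∫ s, Φb s ∂μ = ∫ x, Φ x ∂(Measure.pi fun _ : Fin (N + 1) => μ) := (Gr.fubini hμ hΦ).symm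
    rw [hfub] at hone
    -- the density of the first coordinate
    set hd : ℝ → ℝ := fun r => Z r / I with hhd
    have ghd : G1 hd := by
      have := gZ.mul (G1.const I⁻¹)
      simpa [hhd, div_eq_mul_inv] using this
    have hhd1 : ∫ r, hd r ∂μ = 1 := by
      rw [hhd, integral_div]
      exact div_self hIp.ne'
    set Ent := ∫ r, hd r * (Real.log (Z r) - Real.log I) ∂μ with hEnt
    have hone' : ∫ r, hd r * R r ∂μ - C / t * Ent ≤ ∫ x, Φ x ∂(Measure.pi fun _ : Fin (N + 1) => μ) := hone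
    -- the chain rule
    have gEfh : G1 fun r => hd r * E1 μ t F f r := ghd.mul gEf
    have gEFh : G1 fun r => hd r * E1 μ t F F r := ghd.mul gEF
    have gLh : G1 fun r => hd r * Real.log (Z r) := ghd.mul glZ
    have f1 : ∫ r, hd r * R r ∂μ = ∫ r, hd r * E1 μ t F f r ∂μ -
        C / t * (t * ∫ r, hd r * E1 μ t F F r ∂μ - ∫ r, hd r * Real.log (Z r) ∂μ) := by
      have e1 : (fun r => hd r * R r) = fun r => hd r * E1 μ t F f r -
          C / t * (t * (hd r * E1 μ t F F r) - hd r * Real.log (Z r)) := by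
        funext r
        rw [hR]
        ring
      rw [e1]
      have j1 : Integrable (fun r => t * (hd r * E1 μ t F F r)) μ := ((G1.const t).mul gEFh).integrable hμ
      have j2 : Integrable (fun r => C / t * (t * (hd r * E1 μ t F F r) - hd r * Real.log (Z r))) μ :=
        ((G1.const (C / t)).mul (((G1.const t).mul gEFh).sub gLh)).integrable hμ
      rw [integral_sub (gEfh.integrable hμ) j2, integral_const_mul, integral_sub j1 (gLh.integrable hμ),
        integral_const_mul]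
    have f2 : Ent = ∫ r, hd r * Real.log (Z r) ∂μ - Real.log I := by
      rw [hEnt]
      have e1 : ∀ r, hd r * (Real.log (Z r) - Real.log I) = hd r * Real.log (Z r) - hd r * Real.log I :=
        fun r => by ring
      simp_rw [e1]
      rw [integral_sub (gLh.integrable hμ) ((ghd.mul (G1.const _)).integrable hμ), integral_mul_const, hhd1,
        one_mul]
    have f3 : EE μ t F f = ∫ r, hd r * E1 μ t F f r ∂μ := EE_eq hμ h ht0' hf
    have f4 : EE μ t F F = ∫ r, hd r * E1 μ t F F r ∂μ := EE_eq hμ h ht0' h.GrF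
    have f5 : ZZ μ t F = I := ZZ_eq hμ h ht0'
    rw [f3, f4, f5]
    rw [f1] at hone'
    have f6 : C / t * (t * ∫ r, hd r * E1 μ t F F r ∂μ - Real.log I) =
        C / t * (t * ∫ r, hd r * E1 μ t F F r ∂μ - ∫ r, hd r * Real.log (Z r) ∂μ) + C / t * Ent := by
      rw [f2]
      ring
    rw [f6]
    linarith

/-- THE DOUBLING INEQUALITY AT ZERO TEMPERATURE. -/
theorem LE0 {q : ℝ → ℝ} {L r : ℝ} (hq : Qf μ q L r) : ∃ a : ℝ, 0 < a ∧ ∀ (n : ℕ) (F : (Fin n → ℝ) → ℝ)
    (D : Fin n → (Fin n → ℝ) → ℝ), Pot0 F D → ∀ t : ℝ, 0 < t → t * L ≤ 1 →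
      (2 + a) * psi (Measure.pi fun _ : Fin n => μ) F t ≤ psi (Measure.pi fun _ : Fin n => μ) F (2 * t) := by
  have hμ := hq.em
  have hr0 := hq.r0
  have hL0 := hq.L0
  obtain ⟨C, hC⟩ : ∃ C, C = 6 * Real.exp 1 * L * r := ⟨_, rfl⟩
  have hC0 : 0 ≤ C := by
    rw [hC]
    positivity
  refine ⟨1 / (C + 1), by positivity, ?_⟩
  intro n F D hPot t ht0 htL
  have ht0' : 0 ≤ t := ht0.le
  set P : Measure (Fin n → ℝ) := Measure.pi fun _ : Fin n => μ with hP
  set m := ∫ y, F y ∂P with hm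
  have hmain := entropy_ineq hq ht0 htL n F D hPot F F hPot.GrF hPot.GrF hPot.cvx
  rw [← hP, ← hm, ← hC] at hmain
  set E := EE μ t F F with hE
  have hZ1 := ZZ_pos hμ hPot ht0'
  have hZ2 := ZZ_pos hμ hPot (t := 2 * t) (by linarith)
  have hpsi : ∀ s : ℝ, 0 ≤ s → psi P F s = Real.log (ZZ μ s F) - s * m := by
    intro s hs
    have e1 : ∫ x, Real.exp (s * (F x - ∫ y, F y ∂P)) ∂P = ZZ μ s F * Real.exp (-(s * m)) := by
      unfold ZZ
      rw [← integral_mul_const]
      apply integral_congr_ae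
      filter_upwards with x
      rw [← Real.exp_add]
      congr 1
      rw [← hm]
      ring
    unfold psi
    rw [e1, Real.log_mul (ZZ_pos hμ hPot hs).ne' (Real.exp_pos _).ne', Real.log_exp]
    ring
  rw [hpsi t ht0', hpsi (2 * t) (by linarith)]
  -- Gibbs inequality at `2 t`
  have hgibbs : Real.exp (t * E) * ZZ μ t F ≤ ZZ μ (2 * t) F := by
    have gE := hPot.GrE ht0'
    have gFE := hPot.GrF.mul gE
    have h1 : ∫ x, Real.exp (t * E) * (1 - t * E) * Real.exp (t * F x) +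
        Real.exp (t * E) * t * (F x * Real.exp (t * F x)) ∂P ≤ ZZ μ (2 * t) F := by
      apply integral_mono
      · exact (((Gr.const _).mul gE).add ((Gr.const _).mul gFE)).integrable hμ
      · exact (hPot.GrE (t := 2 * t) (by linarith)).integrable hμ
      · intro x
        have h2 := mul_le_mul_of_nonneg_left (tangent (t * F x) (t * E)) (Real.exp_pos (t * F x)).le
        have h3 : Real.exp (t * F x) * Real.exp (t * F x) = Real.exp (2 * t * F x) := by
          rw [← Real.exp_add]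
          congr 1
          ring
        rw [h3] at h2
        refine le_trans (le_of_eq ?_) h2
        ring
    rw [integral_add (((Gr.const _).mul gE).integrable hμ) (((Gr.const _).mul gFE).integrable hμ),
      integral_const_mul, integral_const_mul] at h1
    have e1 : ∫ x, Real.exp (t * F x) ∂P = ZZ μ t F := rfl
    have e2 : ∫ x, F x * Real.exp (t * F x) ∂P = E * ZZ μ t F := (EE_mul hμ hPot ht0' F).symm
    rw [e1, e2] at h1
    refine le_trans (le_of_eq ?_) h1
    ring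
  have hlog : t * E + Real.log (ZZ μ t F) ≤ Real.log (ZZ μ (2 * t) F) := by
    have h1 := Real.log_le_log (mul_pos (Real.exp_pos _) hZ1) hgibbs
    rwa [Real.log_mul (Real.exp_pos _).ne' hZ1.ne', Real.log_exp] at h1
  -- conclusion
  set L := Real.log (ZZ μ t F) with hL
  have h1 : t * (E - m) ≤ C * (t * E - L) := by
    have h2 : E - C / t * (t * E - L) ≤ m := hmain
    have h3 : t * (E - m) ≤ t * (C / t * (t * E - L)) := mul_le_mul_of_nonneg_left (by linarith) ht0'
    have h4 : t * (C / t * (t * E - L)) = C * (t * E - L) := by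
      field_simp
    linarith
  -- the entropy is nonnegative
  have hent : Real.exp (-(t * E)) * ZZ μ t F ≤ 1 := by
    have gE := hPot.GrE ht0'
    have gFE := hPot.GrF.mul gE
    have h1 : ∫ x, Real.exp (-(t * E)) * (1 + t * E) * Real.exp (t * F x) +
        Real.exp (-(t * E)) * (-t) * (F x * Real.exp (t * F x)) ∂P ≤ ∫ _x, (1 : ℝ) ∂P := by
      apply integral_mono
      · exact (((Gr.const _).mul gE).add ((Gr.const _).mul gFE)).integrable hμ
      · exact integrable_const _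
      · intro x
        have h2 := mul_le_mul_of_nonneg_left (tangent (-(t * F x)) (-(t * E))) (Real.exp_pos (t * F x)).le
        have h3 : Real.exp (t * F x) * Real.exp (-(t * F x)) = 1 := by
          rw [← Real.exp_add]
          simp
        rw [h3] at h2
        refine le_trans (le_of_eq ?_) h2
        ring
    rw [integral_add (((Gr.const _).mul gE).integrable hμ) (((Gr.const _).mul gFE).integrable hμ),
      integral_const_mul, integral_const_mul] at h1
    have e1 : ∫ x, Real.exp (t * F x) ∂P = ZZ μ t F := rfl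
    have e2 : ∫ x, F x * Real.exp (t * F x) ∂P = E * ZZ μ t F := (EE_mul hμ hPot ht0' F).symm
    rw [e1, e2] at h1
    simp only [integral_const, probReal_univ, smul_eq_mul, mul_one] at h1
    refine le_trans (le_of_eq ?_) h1
    ring
  have hH : 0 ≤ t * E - L := by
    have h1 := Real.log_le_log (mul_pos (Real.exp_pos _) hZ1) hent
    rw [Real.log_mul (Real.exp_pos _).ne' hZ1.ne', Real.log_exp, Real.log_one] at h1
    linarith
  have h2 : L - t * m ≤ (C + 1) * (t * E - L) := by nlinarith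
  have h3 : 1 / (C + 1) * (L - t * m) ≤ t * E - L := by
    rw [div_mul_eq_mul_div, one_mul, div_le_iff₀ (by positivity)]
    linarith
  linarith

end

end Pool.Agent.W_1b8d5d_LE
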