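import Pool.Agent.W_7d29a1_LE.LeD

/-!
MP_1b8d5d_pr, track P, row 627 section 1 (paper: helper7): the doubling inequality for the log-Laplace transform at zero
temperature. One coordinate: the law is the law of `q U`, `U` uniform on `[0, 1]`, `q` increasing and bi-Lipschitz, so the
monotone coupling is explicit. (helper57)
-/

namespace Pool.Agent.W_1b8d5d_LE

open MeasureTheory Set Filter Topology
open Pool.Agent.W_7d29a1_h47 (EM)
open Pool.Agent.W_7d29a1_LE

noncomputable section

/-- `μ` is the law of `q U` with `U` uniform on `[0, 1]`: a law on an interval with a density between `1 / L` and `r`. -/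
structure Qf (μ : Measure ℝ) (q : ℝ → ℝ) (L r : ℝ) : Prop where
  law : μ = (volume.restrict (Icc (0 : ℝ) 1)).map q
  L0 : 0 < L
  r0 : 0 < r
  lower : ∀ u v, u ≤ v → v - u ≤ r * (q v - q u)
  upper : ∀ u v, u ≤ v → q v - q u ≤ L * (v - u)

variable {μ : Measure ℝ} {q : ℝ → ℝ} {L r : ℝ}

lemma Qf.mono (h : Qf μ q L r) : Monotone q := by
  intro u v huv
  have h1 := h.lower u v huv
  have h2 : 0 ≤ r * (q v - q u) := le_trans (by linarith) h1
  have h3 := nonneg_of_mul_nonneg_right h2 h.r0
  linarith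

lemma Qf.lip (h : Qf μ q L r) : LipschitzWith L.toNNReal q := by
  apply LipschitzWith.of_le_add_mul
  intro x y
  rw [Real.coe_toNNReal _ h.L0.le, Real.dist_eq]
  rcases le_total x y with hxy | hxy
  · have h1 := h.mono hxy
    have h2 : 0 ≤ L * |x - y| := mul_nonneg h.L0.le (abs_nonneg _)
    linarith
  · rw [abs_of_nonneg (by linarith)]
    have := h.upper y x hxy
    linarith

lemma Qf.cont (h : Qf μ q L r) : Continuous q := h.lip.continuous

lemma Qf.prob (h : Qf μ q L r) : IsProbabilityMeasure μ := by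
  rw [h.law]
  have : IsProbabilityMeasure (volume.restrict (Icc (0 : ℝ) 1)) := ⟨by simp⟩
  exact Measure.isProbabilityMeasure_map h.cont.measurable.aemeasurable

lemma Qf.integral (h : Qf μ q L r) {f : ℝ → ℝ} (hf : Measurable f) : ∫ x, f x ∂μ = ∫ u in (0 : ℝ)..1, f (q u) := by
  rw [h.law, integral_map h.cont.measurable.aemeasurable hf.aestronglyMeasurable,
    intervalIntegral.integral_of_le zero_le_one, ← integral_Icc_eq_integral_Ioc]

lemma Qf.em (h : Qf μ q L r) : EM μ := by
  intro b
  rw [h.law]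
  have hc : Continuous fun u : ℝ => Real.exp (b * |u|) := by fun_prop
  rw [integrable_map_measure hc.measurable.aestronglyMeasurable h.cont.measurable.aemeasurable]
  exact (hc.comp h.cont).integrableOn_Icc

/-- Bounded measurable functions are integrable. -/
lemma ii_bdd {f : ℝ → ℝ} (hf : Measurable f) {M : ℝ} (hM : ∀ u ∈ Icc (0 : ℝ) 1, |f u| ≤ M) :
    IntervalIntegrable f volume 0 1 := by
  rw [intervalIntegrable_iff_integrableOn_Icc_of_le zero_le_one]
  refine IntegrableOn.of_bound (C := M) (by simp) hf.aestronglyMeasurable ?_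
  rw [ae_restrict_iff' measurableSet_Icc]
  filter_upwards with u hu
  rw [Real.norm_eq_abs]
  exact hM u hu

lemma G1.bdd {f : ℝ → ℝ} (hf : G1 f) {q : ℝ → ℝ} (hq : Continuous q) : ∃ M : ℝ, ∀ u ∈ Icc (0 : ℝ) 1, |f (q u)| ≤ M := by
  obtain ⟨_, B, hB, hb⟩ := hf
  have hc : Continuous fun u : ℝ => B * Real.exp (B * |q u|) := by fun_prop
  obtain ⟨M, hM⟩ := (isCompact_Icc (a := (0 : ℝ)) (b := 1)).exists_bound_of_continuousOn hc.continuousOn
  exact ⟨M, fun u hu => (hb _).trans ((le_abs_self _).trans (hM u hu))⟩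

/-- The entropy function near `1`. -/
lemma log_phi {h : ℝ} (h0 : Real.exp (-1) ≤ h) (h1 : h ≤ Real.exp 1) : (h - 1) * Real.log h ≤ 6 * phi h := by
  have hp : 0 < h := (Real.exp_pos _).trans_le h0
  have hs : 0 < Real.sqrt h := Real.sqrt_pos.2 hp
  obtain ⟨y, hy⟩ : ∃ y, y = Real.sqrt h := ⟨_, rfl⟩
  have hyy : h = y * y := by rw [hy, Real.mul_self_sqrt hp.le]
  rw [← hy] at hs
  have hlog : Real.log h = 2 * Real.log y := by
    rw [hyy, Real.log_mul hs.ne' hs.ne']
    ring
  have hphi : (y - 1) ^ 2 ≤ phi h := by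
    rw [hy]
    exact phi_ge hp
  have e1 := Real.exp_one_lt_d9
  have e2 := Real.exp_neg_one_gt_d9
  have hy2 : y ≤ 2 := by
    by_contra hc
    push Not at hc
    nlinarith
  have hy1 : 1 / 2 ≤ y := by
    by_contra hc
    push Not at hc
    nlinarith
  refine le_trans ?_ (mul_le_mul_of_nonneg_left hphi (by norm_num : (0 : ℝ) ≤ 6))
  rw [hlog, hyy]
  rcases le_total 1 y with h2 | h2
  · have h3 : Real.log y ≤ y - 1 := Real.log_le_sub_one_of_pos hs
    have h4 : 0 ≤ y * y - 1 := by nlinarith
    have h5 := mul_le_mul_of_nonneg_left h3 h4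
    nlinarith [mul_nonneg (sub_nonneg.2 h2) (sub_nonneg.2 h2)]
  · have h3 : 1 - y⁻¹ ≤ Real.log y := Real.one_sub_inv_le_log_of_pos hs
    have h4 : 0 ≤ 1 - y * y := by nlinarith
    have h5 := mul_le_mul_of_nonneg_left h3 h4
    have h6 : (1 - y * y) * (1 - y⁻¹) = -((1 + y) * (1 - y) ^ 2 * y⁻¹) := by
      field_simp
      ring
    rw [h6] at h5
    have h7 : (1 + y) * y⁻¹ ≤ 3 := by
      rw [← div_eq_mul_inv, div_le_iff₀ hs]
      linarith
    have h8 : (1 + y) * (1 - y) ^ 2 * y⁻¹ ≤ 3 * (1 - y) ^ 2 := by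
      have := mul_le_mul_of_nonneg_right h7 (sq_nonneg (1 - y))
      linarith
    nlinarith

/-- Integration by parts against a function with slopes at least `s g`. -/
theorem ibp {a g hh : ℝ → ℝ} {K : NNReal} {s : ℝ} (ha : LipschitzWith K a) (hg : Measurable g) (hg0 : ∀ u, 0 ≤ g u)
    (hg1 : ∀ u, g u ≤ 1) (hh_c : Continuous hh) (hs : ∀ u v, u ≤ v → s * g u * (v - u) ≤ a v - a u)
    (h1 : ∫ u in (0 : ℝ)..1, hh u = 1) (hΨ : ∀ u ∈ Icc (0 : ℝ) 1, ∫ w in (0 : ℝ)..u, hh w ≤ u) :
    s * ∫ u in (0 : ℝ)..1, g u * (u - ∫ w in (0 : ℝ)..u, hh w) ≤ ∫ u in (0 : ℝ)..1, a u * (hh u - 1) := by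
  set H : ℝ → ℝ := fun u => ∫ w in (0 : ℝ)..u, hh w with hH
  have hHd : ∀ u, HasDerivAt H (hh u) u := fun u =>
    intervalIntegral.integral_hasDerivAt_right (hh_c.intervalIntegrable _ _)
      (hh_c.stronglyMeasurableAtFilter _ _) hh_c.continuousAt
  have hHc : Continuous H := by
    rw [continuous_iff_continuousAt]
    exact fun u => (hHd u).continuousAt
  set Ψ : ℝ → ℝ := fun u => u - H u with hΨdef
  have hΨd : ∀ u, HasDerivAt Ψ (1 - hh u) u := fun u => (hasDerivAt_id u).sub (hHd u)
  have hΨc : Continuous Ψ := continuous_id.sub hHc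
  have hΨ0 : Ψ 0 = 0 := by simp [hΨdef, hH]
  have hΨ1 : Ψ 1 = 0 := by
    have : H 1 = 1 := h1
    simp [hΨdef, this]
  have aca : AbsolutelyContinuousOnInterval a 0 1 := (ha.lipschitzOnWith (s := uIcc 0 1)).absolutelyContinuousOnInterval
  have acH : AbsolutelyContinuousOnInterval H 0 1 :=
    (hh_c.intervalIntegrable 0 1).absolutelyContinuousOnInterval_intervalIntegral (c := 0) (by simp)
  have acI : AbsolutelyContinuousOnInterval (fun u : ℝ => u) 0 1 :=
    (LipschitzWith.id.lipschitzOnWith (s := uIcc 0 1)).absolutelyContinuousOnInterval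
  have acΨ : AbsolutelyContinuousOnInterval Ψ 0 1 := acI.fun_sub acH
  have hibp := aca.integral_mul_deriv_eq_deriv_mul acΨ
  rw [hΨ0, hΨ1] at hibp
  have e1 : ∫ x in (0 : ℝ)..1, a x * deriv Ψ x = -∫ u in (0 : ℝ)..1, a u * (hh u - 1) := by
    rw [← intervalIntegral.integral_neg]
    apply intervalIntegral.integral_congr
    intro u _
    show a u * deriv Ψ u = -(a u * (hh u - 1))
    rw [(hΨd u).deriv]
    ring
  rw [e1] at hibp
  have e2 : ∫ u in (0 : ℝ)..1, a u * (hh u - 1) = ∫ x in (0 : ℝ)..1, deriv a x * Ψ x := by linarith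
  rw [e2, ← intervalIntegral.integral_const_mul]
  obtain ⟨M, hM⟩ := (isCompact_Icc (a := (0 : ℝ)) (b := 1)).exists_bound_of_continuousOn hΨc.continuousOn
  apply intervalIntegral.integral_mono_ae_restrict zero_le_one
  · apply IntervalIntegrable.const_mul
    refine ii_bdd (M := M) (hg.mul hΨc.measurable) fun u hu => ?_
    rw [abs_mul, abs_of_nonneg (hg0 u)]
    have h2 := hM u hu
    rw [Real.norm_eq_abs] at h2
    calc g u * |Ψ u| ≤ 1 * |Ψ u| := mul_le_mul_of_nonneg_right (hg1 u) (abs_nonneg _)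
      _ ≤ M := by linarith
  · exact aca.intervalIntegrable_deriv.mul_continuousOn hΨc.continuousOn
  · have hae := aca.ae_differentiableAt
    rw [EventuallyLE, ae_restrict_iff' measurableSet_Icc]
    filter_upwards [hae] with u hu hu1
    have hu2 : DifferentiableAt ℝ a u := hu (by rwa [uIcc_of_le zero_le_one])
    have h3 : s * g u ≤ deriv a u := by
      have h4 := hu2.hasDerivAt.tendsto_slope
      have h5 : Tendsto (slope a u) (𝓝[>] u) (𝓝 (deriv a u)) :=
        h4.mono_left (nhdsWithin_mono u fun x hx => ne_of_gt hx)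
      refine ge_of_tendsto h5 ?_
      filter_upwards [self_mem_nhdsWithin] with v hv
      have hv' : 0 < v - u := sub_pos.2 hv
      rw [slope_def_field, le_div_iff₀ hv']
      exact hs u v (le_of_lt hv)
    have h6 : 0 ≤ Ψ u := sub_nonneg.2 (hΨ u hu1)
    show s * (g u * Ψ u) ≤ deriv a u * Ψ u
    have := mul_le_mul_of_nonneg_right h3 h6
    linarith

/-- A convex function with the values `0` at `0` and `1` at `1` is below the diagonal. -/
lemma prim_le {hh : ℝ → ℝ} (hc : Continuous hh) (hm : Monotone hh) (h1 : ∫ u in (0 : ℝ)..1, hh u = 1) :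
    ∀ u ∈ Icc (0 : ℝ) 1, ∫ w in (0 : ℝ)..u, hh w ≤ u := by
  intro u hu
  set H : ℝ → ℝ := fun u => ∫ w in (0 : ℝ)..u, hh w with hH
  have hHd : ∀ u, HasDerivAt H (hh u) u := fun u =>
    intervalIntegral.integral_hasDerivAt_right (hc.intervalIntegrable _ _)
      (hc.stronglyMeasurableAtFilter _ _) hc.continuousAt
  have hd : deriv H = hh := funext fun u => (hHd u).deriv
  have hcv : ConvexOn ℝ univ H := by
    apply Monotone.convexOn_univ_of_deriv fun u => (hHd u).differentiableAt
    rw [hd]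
    exact hm
  have h2 := hcv.2 (mem_univ (0 : ℝ)) (mem_univ (1 : ℝ)) (sub_nonneg.2 hu.2) hu.1 (by ring)
  have e0 : H 0 = 0 := by simp [hH]
  have e1 : H 1 = 1 := h1
  simp only [smul_eq_mul, mul_zero, mul_one, zero_add, e0, e1] at h2
  exact h2

/-- ONE COORDINATE: the monotone coupling of `μ` and `(Z / I) μ`. -/
theorem one_coord (hq : Qf μ q L r) {t : ℝ} (ht : 0 < t) (htL : t * L ≤ 1) {Z G R Φ : ℝ → ℝ} (hZ : ∀ x, 0 < Z x)
    (hG0 : ∀ x, 0 ≤ G x) (hG1 : ∀ x, G x ≤ 1)
    (glo : ∀ x y, x ≤ y → t * G x * (y - x) ≤ Real.log (Z y) - Real.log (Z x))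
    (ghi : ∀ x y, x ≤ y → Real.log (Z y) - Real.log (Z x) ≤ t * G y * (y - x))
    (mG : Measurable G) (gR : G1 R) (gΦ : G1 Φ) (hle : ∀ x y, R x + G x * (y - x) ≤ Φ y) :
    ∫ x, Z x / (∫ u, Z u ∂μ) * R x ∂μ -
      6 * Real.exp 1 * L * r / t * ∫ x, Z x / (∫ u, Z u ∂μ) * (Real.log (Z x) - Real.log (∫ u, Z u ∂μ)) ∂μ ≤
      ∫ x, Φ x ∂μ := by
  have hL0 := hq.L0
  have hr0 := hq.r0
  have hqc := hq.cont
  set a : ℝ → ℝ := fun u => Real.log (Z (q u)) with ha
  set g : ℝ → ℝ := fun u => G (q u) with hg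
  have mg : Measurable g := mG.comp hqc.measurable
  have hstep : ∀ u v, u ≤ v → a u ≤ a v ∧ a v ≤ a u + (v - u) := by
    intro u v huv
    have h1 := glo _ _ (hq.mono huv)
    have h2 := ghi _ _ (hq.mono huv)
    have h3 := hq.upper u v huv
    have h4 : 0 ≤ q v - q u := sub_nonneg.2 (hq.mono huv)
    have h5 : 0 ≤ t * G (q u) * (q v - q u) := mul_nonneg (mul_nonneg ht.le (hG0 _)) h4
    have h6 : t * G (q v) * (q v - q u) ≤ t * 1 * (L * (v - u)) := by
      apply mul_le_mul (mul_le_mul_of_nonneg_left (hG1 _) ht.le) h3 h4 (by positivity)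
    have h7 : t * 1 * (L * (v - u)) ≤ v - u := by
      have := mul_le_mul_of_nonneg_right htL (sub_nonneg.2 huv)
      linarith
    constructor
    · show Real.log (Z (q u)) ≤ Real.log (Z (q v))
      linarith
    · show Real.log (Z (q v)) ≤ Real.log (Z (q u)) + (v - u)
      linarith
  have hamono : Monotone a := fun u v huv => (hstep u v huv).1
  have haL : LipschitzWith 1 a := by
    apply LipschitzWith.of_le_add_mul
    intro x y
    rw [NNReal.coe_one, one_mul, Real.dist_eq]
    rcases le_total x y with hxy | hxy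
    · have := (hstep x y hxy).1
      have := abs_nonneg (x - y)
      linarith
    · rw [abs_of_nonneg (by linarith)]
      exact (hstep y x hxy).2
  have hac := haL.continuous
  have hs : ∀ u v, u ≤ v → t / r * g u * (v - u) ≤ a v - a u := by
    intro u v huv
    refine le_trans ?_ (glo _ _ (hq.mono huv))
    have h1 := hq.lower u v huv
    have h2 := mul_le_mul_of_nonneg_left h1 (show 0 ≤ t / r * g u from mul_nonneg (by positivity) (hG0 _))
    refine h2.trans (le_of_eq ?_)
    show t / r * G (q u) * (r * (q v - q u)) = t * G (q u) * (q v - q u)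
    field_simp
  -- `Z` is measurable
  have mZ : Measurable Z := by
    have hl : LipschitzWith t.toNNReal fun x => Real.log (Z x) := by
      apply LipschitzWith.of_le_add_mul
      intro x y
      rw [Real.coe_toNNReal _ ht.le, Real.dist_eq]
      rcases le_total x y with hxy | hxy
      · have h1 := glo x y hxy
        have h2 : 0 ≤ t * G x * (y - x) := mul_nonneg (mul_nonneg ht.le (hG0 _)) (sub_nonneg.2 hxy)
        have h3 : 0 ≤ t * |x - y| := mul_nonneg ht.le (abs_nonneg _)
        linarith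
      · rw [abs_of_nonneg (by linarith)]
        have h1 := ghi y x hxy
        have h2 := mul_le_mul_of_nonneg_right (mul_le_mul_of_nonneg_left (hG1 x) ht.le) (sub_nonneg.2 hxy)
        linarith
    have e : Z = fun x => Real.exp (Real.log (Z x)) := funext fun x => (Real.exp_log (hZ x)).symm
    rw [e]
    exact Real.measurable_exp.comp hl.continuous.measurable
  have hexpa : ∀ u, Real.exp (a u) = Z (q u) := fun u => Real.exp_log (hZ _)
  set I := ∫ u, Z u ∂μ with hI
  have hI' : I = ∫ u in (0 : ℝ)..1, Real.exp (a u) := by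
    rw [hI, hq.integral mZ]
    apply intervalIntegral.integral_congr
    intro u _
    exact (hexpa u).symm
  have hec : Continuous fun u => Real.exp (a u) := Real.continuous_exp.comp hac
  have hI0 : Real.exp (a 0) ≤ I := by
    rw [hI']
    have h1 : ∫ u in (0 : ℝ)..1, Real.exp (a 0) ≤ ∫ u in (0 : ℝ)..1, Real.exp (a u) :=
      intervalIntegral.integral_mono_on zero_le_one (by simp) (hec.intervalIntegrable _ _)
        fun u hu => Real.exp_le_exp.2 (hamono hu.1)
    simpa using h1
  have hI1 : I ≤ Real.exp (a 1) := by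
    rw [hI']
    have h1 : ∫ u in (0 : ℝ)..1, Real.exp (a u) ≤ ∫ u in (0 : ℝ)..1, Real.exp (a 1) :=
      intervalIntegral.integral_mono_on zero_le_one (hec.intervalIntegrable _ _) (by simp)
        fun u hu => Real.exp_le_exp.2 (hamono hu.2)
    simpa using h1
  have hIp : 0 < I := (Real.exp_pos _).trans_le hI0
  have ha01 : a 1 ≤ a 0 + 1 := by
    have := (hstep 0 1 zero_le_one).2
    linarith
  set hh : ℝ → ℝ := fun u => Real.exp (a u) / I with hhh
  have hhc : Continuous hh := hec.div_const I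
  have hhm : Monotone hh := fun u v huv => by
    show Real.exp (a u) / I ≤ Real.exp (a v) / I
    have := Real.exp_le_exp.2 (hamono huv)
    gcongr
  have hh0 : ∀ u, 0 ≤ hh u := fun u => (div_pos (Real.exp_pos _) hIp).le
  have hhu : ∀ u ∈ Icc (0 : ℝ) 1, hh u ≤ Real.exp 1 := by
    intro u hu
    show Real.exp (a u) / I ≤ Real.exp 1
    rw [div_le_iff₀ hIp]
    have h1 : Real.exp (a u) ≤ Real.exp (1 + a 0) := Real.exp_le_exp.2 (by linarith [hamono hu.2])
    rw [Real.exp_add] at h1
    exact h1.trans (mul_le_mul_of_nonneg_left hI0 (Real.exp_pos _).le)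
  have hhl : ∀ u ∈ Icc (0 : ℝ) 1, Real.exp (-1) ≤ hh u := by
    intro u hu
    show Real.exp (-1) ≤ Real.exp (a u) / I
    rw [le_div_iff₀ hIp]
    have h1 : Real.exp (-1 + a 1) ≤ Real.exp (a u) := Real.exp_le_exp.2 (by linarith [hamono hu.1])
    rw [Real.exp_add] at h1
    exact (mul_le_mul_of_nonneg_left hI1 (Real.exp_pos _).le).trans h1
  have hint1 : ∫ u in (0 : ℝ)..1, hh u = 1 := by
    show ∫ u in (0 : ℝ)..1, Real.exp (a u) / I = 1
    rw [intervalIntegral.integral_div, ← hI']
    exact div_self hIp.ne'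
  have hHle := prim_le hhc hhm hint1
  set H : ℝ → ℝ := fun u => ∫ w in (0 : ℝ)..u, hh w with hH
  have hHd : ∀ u, HasDerivAt H (hh u) u := fun u =>
    intervalIntegral.integral_hasDerivAt_right (hhc.intervalIntegrable _ _)
      (hhc.stronglyMeasurableAtFilter _ _) hhc.continuousAt
  have hHc : Continuous H := by
    rw [continuous_iff_continuousAt]
    exact fun u => (hHd u).continuousAt
  have hH0 : H 0 = 0 := by simp [hH]
  have hH1 : H 1 = 1 := hint1
  have hHm : Monotone H := by
    apply monotone_of_deriv_nonneg fun u => (hHd u).differentiableAt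
    intro u
    rw [(hHd u).deriv]
    exact hh0 u
  -- change of variables
  have hcv : ∫ u in (0 : ℝ)..1, hh u * Φ (q (H u)) = ∫ x, Φ x ∂μ := by
    have h1 := intervalIntegral.integral_deriv_smul_comp_of_deriv_nonneg (a := (0 : ℝ)) (b := 1) (f := H) (f' := hh)
      (g := fun v => Φ (q v)) hHc.continuousOn (fun x _ => hHd x) (fun x _ => hh0 x)
    rw [hH0, hH1] at h1
    rw [hq.integral gΦ.meas, ← h1]
    rfl
  rw [← hcv]
  -- integrability
  obtain ⟨MΦ, hMΦ⟩ := G1.bdd gΦ hqc
  obtain ⟨MR, hMR⟩ := G1.bdd gR hqc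
  have hHI : ∀ u ∈ Icc (0 : ℝ) 1, H u ∈ Icc (0 : ℝ) 1 := fun u hu =>
    ⟨by rw [← hH0]; exact hHm hu.1, by rw [← hH1]; exact hHm hu.2⟩
  have mhh := hhc.measurable
  have iΦ : IntervalIntegrable (fun u => hh u * Φ (q (H u))) volume 0 1 := by
    refine ii_bdd (M := Real.exp 1 * MΦ) (mhh.mul (gΦ.meas.comp (hqc.comp hHc).measurable)) fun u hu => ?_
    rw [abs_mul, abs_of_nonneg (hh0 u)]
    exact mul_le_mul (hhu u hu) (hMΦ _ (hHI u hu)) (abs_nonneg _) (Real.exp_pos _).le
  have iR : IntervalIntegrable (fun u => hh u * R (q u)) volume 0 1 := by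
    refine ii_bdd (M := Real.exp 1 * MR) (mhh.mul (gR.meas.comp hqc.measurable)) fun u hu => ?_
    rw [abs_mul, abs_of_nonneg (hh0 u)]
    exact mul_le_mul (hhu u hu) (hMR _ hu) (abs_nonneg _) (Real.exp_pos _).le
  have hg0 : ∀ u, 0 ≤ g u := fun u => hG0 _
  have hg1 : ∀ u, g u ≤ 1 := fun u => hG1 _
  have iK : IntervalIntegrable (fun u => g u * (u - H u)) volume 0 1 := by
    refine ii_bdd (M := 1) (mg.mul (measurable_id.sub hHc.measurable)) fun u hu => ?_
    have h1 := hHI u hu
    have h2 : |u - H u| ≤ 1 := by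
      rw [abs_le]
      constructor <;> linarith [hu.1, hu.2, h1.1, h1.2]
    rw [abs_mul, abs_of_nonneg (hg0 u)]
    calc g u * |u - H u| ≤ 1 * 1 := mul_le_mul (hg1 u) h2 (abs_nonneg _) zero_le_one
      _ = 1 := by ring
  -- the coupling
  have hmain : ∫ u in (0 : ℝ)..1, (hh u * R (q u) - L * Real.exp 1 * (g u * (u - H u))) ≤
      ∫ u in (0 : ℝ)..1, hh u * Φ (q (H u)) := by
    apply intervalIntegral.integral_mono_on zero_le_one (iR.sub (iK.const_mul _)) iΦ
    intro u hu
    have h1 := mul_le_mul_of_nonneg_left (hle (q u) (q (H u))) (hh0 u)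
    have h2 : H u ≤ u := hHle u hu
    have h3 := hq.upper _ _ h2
    have h4 : 0 ≤ u - H u := sub_nonneg.2 h2
    have h5 : -(L * Real.exp 1 * (g u * (u - H u))) ≤ hh u * (g u * (q (H u) - q u)) := by
      have h6 : -(L * (u - H u)) ≤ q (H u) - q u := by linarith
      have h7 := mul_le_mul_of_nonneg_left h6 (mul_nonneg (hh0 u) (hg0 u))
      have h8 : hh u * g u * (L * (u - H u)) ≤ Real.exp 1 * g u * (L * (u - H u)) := by
        apply mul_le_mul_of_nonneg_right _ (mul_nonneg hL0.le h4)
        exact mul_le_mul_of_nonneg_right (hhu u hu) (hg0 u)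
      nlinarith
    show hh u * R (q u) - L * Real.exp 1 * (g u * (u - H u)) ≤ hh u * Φ (q (H u))
    have h9 : hh u * (R (q u) + G (q u) * (q (H u) - q u)) = hh u * R (q u) + hh u * (g u * (q (H u) - q u)) := by
      show hh u * (R (q u) + G (q u) * (q (H u) - q u)) = hh u * R (q u) + hh u * (G (q u) * (q (H u) - q u))
      ring
    rw [h9] at h1
    linarith
  rw [intervalIntegral.integral_sub iR (iK.const_mul _), intervalIntegral.integral_const_mul] at hmain
  refine le_trans ?_ hmain
  -- the entropy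
  have hlogh : ∀ u, Real.log (hh u) = a u - Real.log I := fun u => by
    show Real.log (Real.exp (a u) / I) = _
    rw [Real.log_div (Real.exp_pos _).ne' hIp.ne', Real.log_exp]
  have hibp := ibp haL mg hg0 hg1 hhc hs hint1 hHle
  have eR : ∫ x, Z x / I * R x ∂μ = ∫ u in (0 : ℝ)..1, hh u * R (q u) := by
    have m1 : Measurable fun x => Z x / I * R x := (mZ.div_const I).mul gR.meas
    rw [hq.integral m1]
    apply intervalIntegral.integral_congr
    intro u _
    show Z (q u) / I * R (q u) = Real.exp (a u) / I * R (q u)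
    rw [hexpa]
  have eE : ∫ x, Z x / I * (Real.log (Z x) - Real.log I) ∂μ = ∫ u in (0 : ℝ)..1, phi (hh u) := by
    have m1 : Measurable fun x => Z x / I * (Real.log (Z x) - Real.log I) :=
      (mZ.div_const I).mul ((Real.measurable_log.comp mZ).sub_const _)
    rw [hq.integral m1]
    have h1 : ∀ u, Z (q u) / I * (Real.log (Z (q u)) - Real.log I) = phi (hh u) + (hh u - 1) := by
      intro u
      unfold phi
      rw [hlogh]
      show Z (q u) / I * (Real.log (Z (q u)) - Real.log I) =
        Real.exp (a u) / I * (Real.log (Z (q u)) - Real.log I) - hh u + 1 + (hh u - 1)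
      rw [hexpa]
      ring
    have hpc : Continuous fun u => phi (hh u) := by
      have : (fun u => phi (hh u)) = fun u => hh u * (a u - Real.log I) - hh u + 1 := by
        funext u
        unfold phi
        rw [hlogh]
      rw [this]
      fun_prop
    have hc1 : Continuous fun u => hh u - 1 := by fun_prop
    rw [intervalIntegral.integral_congr (g := fun u => phi (hh u) + (hh u - 1)) fun u _ => h1 u,
      intervalIntegral.integral_add (hpc.intervalIntegrable _ _) (hc1.intervalIntegrable _ _),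
      intervalIntegral.integral_sub (hhc.intervalIntegrable _ _) (by simp), hint1]
    simp
  have hpc : Continuous fun u => phi (hh u) := by
    have : (fun u => phi (hh u)) = fun u => hh u * (a u - Real.log I) - hh u + 1 := by
      funext u
      unfold phi
      rw [hlogh]
    rw [this]
    fun_prop
  have h6 : ∫ u in (0 : ℝ)..1, a u * (hh u - 1) ≤ 6 * ∫ u in (0 : ℝ)..1, phi (hh u) := by
    have h7 : ∫ u in (0 : ℝ)..1, a u * (hh u - 1) = ∫ u in (0 : ℝ)..1, (hh u - 1) * Real.log (hh u) := by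
      have h8 : ∀ u, a u * (hh u - 1) = (hh u - 1) * Real.log (hh u) + Real.log I * (hh u - 1) := by
        intro u
        rw [hlogh]
        ring
      have hc1 : Continuous fun u => (hh u - 1) * Real.log (hh u) := by
        simp_rw [hlogh]
        fun_prop
      have hc2 : Continuous fun u => Real.log I * (hh u - 1) := by fun_prop
      rw [intervalIntegral.integral_congr (g := fun u => (hh u - 1) * Real.log (hh u) + Real.log I * (hh u - 1))
        fun u _ => h8 u, intervalIntegral.integral_add (hc1.intervalIntegrable _ _) (hc2.intervalIntegrable _ _),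
        intervalIntegral.integral_const_mul,
        intervalIntegral.integral_sub (hhc.intervalIntegrable _ _) (by simp), hint1]
      simp
    rw [h7, ← intervalIntegral.integral_const_mul]
    apply intervalIntegral.integral_mono_on zero_le_one
    · have : Continuous fun u => (hh u - 1) * Real.log (hh u) := by
        simp_rw [hlogh]
        fun_prop
      exact this.intervalIntegrable _ _
    · exact (hpc.const_mul 6).intervalIntegrable _ _
    · intro u hu
      exact log_phi (hhl u hu) (hhu u hu)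
  rw [eR, eE]
  -- assemble
  have h10 : t / r * ∫ u in (0 : ℝ)..1, g u * (u - H u) ≤ 6 * ∫ u in (0 : ℝ)..1, phi (hh u) := hibp.trans h6
  have h11 : L * Real.exp 1 * ∫ u in (0 : ℝ)..1, g u * (u - H u) ≤
      6 * Real.exp 1 * L * r / t * ∫ u in (0 : ℝ)..1, phi (hh u) := by
    have h12 := mul_le_mul_of_nonneg_left h10 (show 0 ≤ L * Real.exp 1 * r / t by positivity)
    have e1 : L * Real.exp 1 * r / t * (t / r * ∫ u in (0 : ℝ)..1, g u * (u - H u)) =
        L * Real.exp 1 * ∫ u in (0 : ℝ)..1, g u * (u - H u) := by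
      field_simp
    have e2 : L * Real.exp 1 * r / t * (6 * ∫ u in (0 : ℝ)..1, phi (hh u)) =
        6 * Real.exp 1 * L * r / t * ∫ u in (0 : ℝ)..1, phi (hh u) := by ring
    rw [e1, e2] at h12
    exact h12
  linarith

end

end Pool.Agent.W_1b8d5d_LE
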