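import Pool.Agent.W_1b8d5d_LE.One

/-!
MP_1b8d5d_pr, track P: a law on an interval with a density bounded above and below has a bi-Lipschitz quantile function. (helper57)
-/

namespace Pool.Agent.W_1b8d5d_LE

open MeasureTheory Set Filter Topology

noncomputable section

/-- The law `μ` on `[a, b]` is comparable with the Lebesgue measure: its density is between `c` and `C`. -/
structure Dens (μ : Measure ℝ) (a b c C : ℝ) : Prop where
  ab : a < b
  c0 : 0 < c
  null : μ (Iic a) = 0
  full : μ.real (Iic b) = 1
  lower : ∀ x y, a ≤ x → x ≤ y → y ≤ b → c * (y - x) ≤ μ.real (Ioc x y)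
  upper : ∀ x y, a ≤ x → x ≤ y → y ≤ b → μ.real (Ioc x y) ≤ C * (y - x)

/-- The point of `[a, b]` closest to `x`. -/
def cl (a b x : ℝ) : ℝ := max a (min x b)

lemma cl_mem {a b : ℝ} (hab : a ≤ b) (x : ℝ) : a ≤ cl a b x ∧ cl a b x ≤ b :=
  ⟨le_max_left _ _, max_le hab (min_le_right _ _)⟩

lemma cl_step {a b : ℝ} {x y : ℝ} (hxy : x ≤ y) : cl a b x ≤ cl a b y ∧ cl a b y - cl a b x ≤ y - x := by
  unfold cl
  have h1 : min x b ≤ min y b := min_le_min_right _ hxy
  have h2 : min y b ≤ min x b + (y - x) := by
    rcases le_total x b with h | h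
    · rw [min_eq_left h]
      exact (min_le_left _ _).trans (by linarith)
    · rw [min_eq_right h]
      exact (min_le_right _ _).trans (by linarith)
  constructor
  · exact max_le_max_left _ h1
  · have h3 : max a (min y b) ≤ max a (min x b) + (y - x) := by
      apply max_le
      · exact (le_max_left a (min x b)).trans (by linarith)
      · exact h2.trans (by linarith [le_max_right a (min x b)])
    linarith

variable {μ : Measure ℝ} [IsProbabilityMeasure μ] {a b c C : ℝ}

/-- The extended distribution function. -/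
def Gx (μ : Measure ℝ) (a b C x : ℝ) : ℝ := μ.real (Iic (cl a b x)) + C * (x - cl a b x)

lemma Dens.cC (h : Dens μ a b c C) : c ≤ C := by
  have h1 := (h.lower a b le_rfl h.ab.le le_rfl).trans (h.upper a b le_rfl h.ab.le le_rfl)
  exact le_of_mul_le_mul_right h1 (sub_pos.2 h.ab)

lemma Gx_step (h : Dens μ a b c C) {x y : ℝ} (hxy : x ≤ y) :
    c * (y - x) ≤ Gx μ a b C y - Gx μ a b C x ∧ Gx μ a b C y - Gx μ a b C x ≤ C * (y - x) := by
  obtain ⟨h1, h2⟩ := cl_step (a := a) (b := b) hxy
  have hx := cl_mem h.ab.le x
  have hy := cl_mem h.ab.le y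
  set x' := cl a b x
  set y' := cl a b y
  have e : μ.real (Iic y') - μ.real (Iic x') = μ.real (Ioc x' y') := by
    have h3 : Iic y' = Iic x' ∪ Ioc x' y' := (Iic_union_Ioc_eq_Iic h1).symm
    have h4 : Disjoint (Iic x') (Ioc x' y') := by
      rw [Set.disjoint_left]
      intro z hz hz'
      exact absurd hz (not_le.2 hz'.1)
    rw [h3, measureReal_union h4 measurableSet_Ioc]
    ring
  have h5 := h.lower x' y' hx.1 h1 hy.2
  have h6 := h.upper x' y' hx.1 h1 hy.2
  have hcC := h.cC
  have e2 : Gx μ a b C y - Gx μ a b C x = μ.real (Ioc x' y') + C * ((y - x) - (y' - x')) := by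
    unfold Gx
    rw [← e]
    ring
  rw [e2]
  have h7 : c * ((y - x) - (y' - x')) ≤ C * ((y - x) - (y' - x')) := mul_le_mul_of_nonneg_right hcC (by linarith)
  constructor <;> linarith

/-- THE QUANTILE FUNCTION. -/
theorem exists_Qf (h : Dens μ a b c C) : ∃ q : ℝ → ℝ, Qf μ q (1 / c) C := by
  have hc0 := h.c0
  have hC0 : 0 < C := hc0.trans_le h.cC
  set G := Gx μ a b C with hG
  have hmono : StrictMono G := by
    intro x y hxy
    have h1 := (Gx_step h hxy.le).1
    have h2 : 0 < c * (y - x) := mul_pos hc0 (sub_pos.2 hxy)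
    rw [hG]
    linarith
  have hlip : LipschitzWith C.toNNReal G := by
    apply LipschitzWith.of_le_add_mul
    intro x y
    rw [Real.coe_toNNReal _ hC0.le, Real.dist_eq]
    rcases le_total x y with hxy | hxy
    · have h1 := hmono.monotone hxy
      have h2 : 0 ≤ C * |x - y| := mul_nonneg hC0.le (abs_nonneg _)
      linarith
    · rw [abs_of_nonneg (by linarith)]
      have := (Gx_step h hxy).2
      rw [hG]
      linarith
  have hsurj : Function.Surjective G := by
    apply hlip.continuous.surjective
    · apply tendsto_atTop_mono' atTop (f₁ := fun x => G 0 + c * x) (f₂ := G)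
      · filter_upwards [eventually_ge_atTop (0 : ℝ)] with x hx
        have := (Gx_step h hx).1
        rw [hG]
        linarith
      · exact tendsto_atTop_add_const_left _ _ (tendsto_id.const_mul_atTop hc0)
    · refine tendsto_atBot_mono' atBot (f₁ := fun x => G 0 + c * x) (f₂ := G) ?_ ?_
      · filter_upwards [eventually_le_atBot (0 : ℝ)] with x hx
        have := (Gx_step h hx).1
        rw [hG]
        linarith
      · exact tendsto_atBot_add_const_left _ _ (tendsto_id.const_mul_atBot hc0)
  set e := StrictMono.orderIsoOfSurjective G hmono hsurj with he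
  have heG : ∀ x, e x = G x := fun x => rfl
  set q : ℝ → ℝ := fun u => e.symm u with hq
  have hGq : ∀ u, G (q u) = u := fun u => by
    rw [← heG]
    exact e.apply_symm_apply u
  have hqmono : Monotone q := e.symm.monotone
  have hlow : ∀ u v, u ≤ v → v - u ≤ C * (q v - q u) := by
    intro u v huv
    have := (Gx_step h (hqmono huv)).2
    rw [← hG, hGq, hGq] at this
    exact this
  have hupp : ∀ u v, u ≤ v → q v - q u ≤ 1 / c * (v - u) := by
    intro u v huv
    have := (Gx_step h (hqmono huv)).1
    rw [← hG, hGq, hGq] at this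
    rw [one_div, ← div_eq_inv_mul, le_div_iff₀ hc0]
    linarith
  refine ⟨q, ?_, by positivity, hC0, hlow, hupp⟩
  have hqmeas : Measurable q := hqmono.measurable
  have : IsProbabilityMeasure (volume.restrict (Icc (0 : ℝ) 1)) := ⟨by simp⟩
  have : IsProbabilityMeasure ((volume.restrict (Icc (0 : ℝ) 1)).map q) :=
    Measure.isProbabilityMeasure_map hqmeas.aemeasurable
  apply Measure.ext_of_Iic
  intro x
  rw [Measure.map_apply hqmeas measurableSet_Iic]
  have hpre : q ⁻¹' Iic x = Iic (G x) := by
    ext u
    simp only [mem_preimage, mem_Iic]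
    constructor
    · intro hu
      rw [← hGq u]
      exact hmono.monotone hu
    · intro hu
      have h1 : q u ≤ q (G x) := hqmono hu
      have h2 : q (G x) = x := by
        show e.symm (G x) = x
        rw [← heG]
        exact e.symm_apply_apply x
      rwa [h2] at h1
  rw [hpre, Measure.restrict_apply measurableSet_Iic]
  have ha0 : Gx μ a b C a = 0 := by
    unfold Gx cl
    rw [min_eq_left h.ab.le, max_self]
    simp [measureReal_def, h.null]
  have hb1 : Gx μ a b C b = 1 := by
    unfold Gx cl
    rw [min_self, max_eq_right h.ab.le, h.full]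
    ring
  have hreal : ∀ s : Set ℝ, μ s = ENNReal.ofReal (μ.real s) := fun s => by
    rw [measureReal_def, ENNReal.ofReal_toReal (measure_ne_top _ _)]
  rcases le_total x a with hxa | hxa
  · -- left of the support
    have h1 : G x ≤ 0 := by
      rw [← ha0]
      exact hmono.monotone hxa
    have h2 : μ (Iic x) = 0 := measure_mono_null (Iic_subset_Iic.2 hxa) h.null
    rw [h2]
    symm
    have h3 : Iic (G x) ∩ Icc 0 1 ⊆ {0} := by
      rintro u ⟨hu1, hu2⟩
      have h4 : u ≤ G x := hu1
      exact le_antisymm (by linarith) hu2.1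
    exact measure_mono_null h3 (by simp)
  rcases le_total b x with hxb | hxb
  · have h1 : 1 ≤ G x := by
      rw [← hb1]
      exact hmono.monotone hxb
    have h2 : μ (Iic x) = 1 := by
      apply le_antisymm prob_le_one
      have h3 : μ (Iic b) = 1 := by
        rw [hreal, h.full]
        simp
      rw [← h3]
      exact measure_mono (Iic_subset_Iic.2 hxb)
    rw [h2]
    have h3 : Iic (G x) ∩ Icc 0 1 = Icc (0 : ℝ) 1 := by
      apply inter_eq_right.2
      intro u hu
      exact hu.2.trans h1
    rw [h3]
    simp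
  · have h1 : G x = μ.real (Iic x) := by
      rw [hG]
      unfold Gx cl
      rw [min_eq_left hxb, max_eq_right hxa]
      ring
    have h0 : 0 ≤ G x := by
      rw [h1]
      exact measureReal_nonneg
    have h01 : G x ≤ 1 := by
      rw [h1]
      exact measureReal_le_one
    have h3 : Iic (G x) ∩ Icc 0 1 = Icc (0 : ℝ) (G x) := by
      ext u
      constructor
      · rintro ⟨hu1, hu2⟩
        exact ⟨hu2.1, hu1⟩
      · rintro ⟨hu1, hu2⟩
        exact ⟨hu2, hu1, hu2.trans h01⟩
    rw [h3, Real.volume_Icc, sub_zero, hreal, h1]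

end

end Pool.Agent.W_1b8d5d_LE
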