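import Pool.Agent.W_1b8d5d_LE.Ind

/-!
MP_1b8d5d_pr, track P, row 627 section 1: the exponential lower tail relative to the mean at zero temperature, on an arbitrary
probability space; maxima of finitely many affine functions with coefficients in `[0, 1]`. (helper57)
-/

namespace Pool.Agent.W_1b8d5d_LE

open MeasureTheory Set
open Pool.Agent.W_7d29a1_h47 (EM)
open Pool.Agent.W_7d29a1_LE (Gr psi)

noncomputable section

variable {μ : Measure ℝ} [IsProbabilityMeasure μ] {Ω : Type*} [MeasurableSpace Ω]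

/-- `Λ` is a jointly convex function, nondecreasing and `1`-Lipschitz in each variable, of finitely many independent
variables of law `μ`. -/
def IsP0 (P : Measure Ω) (μ : Measure ℝ) (Λ : Ω → ℝ) : Prop :=
  ∃ (n : ℕ) (F : (Fin n → ℝ) → ℝ) (D : Fin n → (Fin n → ℝ) → ℝ) (r : Ω → Fin n → ℝ), Pot0 F D ∧
    MeasurePreserving r P (Measure.pi fun _ : Fin n => μ) ∧ ∀ ω, Λ ω = F (r ω)

variable {P : Measure Ω} {Λ : Ω → ℝ}

lemma IsP0.prob (h : IsP0 P μ Λ) : IsProbabilityMeasure P := by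
  obtain ⟨n, F, D, r, _, hr, _⟩ := h
  have h1 : (Measure.pi fun _ : Fin n => μ) univ = 1 := measure_univ
  rw [← hr.map_eq, Measure.map_apply hr.measurable MeasurableSet.univ, preimage_univ] at h1
  exact ⟨h1⟩

lemma IsP0.meas (h : IsP0 P μ Λ) : Measurable Λ := by
  obtain ⟨n, F, D, r, hF, hr, he⟩ := h
  have e : Λ = fun ω => F (r ω) := funext he
  rw [e]
  exact hF.measF.comp hr.measurable

lemma IsP0.integrable (hμ : EM μ) (h : IsP0 P μ Λ) : Integrable Λ P := by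
  obtain ⟨n, F, D, r, hF, hr, he⟩ := h
  have e : Λ = fun ω => F (r ω) := funext he
  rw [e]
  exact hr.integrable_comp_of_integrable (hF.GrF.integrable hμ)

lemma IsP0.exp_int (hμ : EM μ) (h : IsP0 P μ Λ) {t : ℝ} (ht : 0 ≤ t) :
    Integrable (fun ω => Real.exp (t * Λ ω)) P := by
  obtain ⟨n, F, D, r, hF, hr, he⟩ := h
  have e : (fun ω => Real.exp (t * Λ ω)) = fun ω => Real.exp (t * F (r ω)) := funext fun ω => by rw [he]
  rw [e]
  exact hr.integrable_comp_of_integrable ((hF.GrE ht).integrable hμ)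

/-- THE DOUBLING INEQUALITY AT ZERO TEMPERATURE, on an arbitrary probability space. -/
theorem LE0_env {q : ℝ → ℝ} {L r₀ : ℝ} (hq : Qf μ q L r₀) : ∃ a : ℝ, 0 < a ∧ ∀ {Ω : Type} [MeasurableSpace Ω]
    (P : Measure Ω) (Λ : Ω → ℝ), IsP0 P μ Λ → ∀ t : ℝ, 0 < t → t * L ≤ 1 → (2 + a) * psi P Λ t ≤ psi P Λ (2 * t) := by
  obtain ⟨a, ha, hLE⟩ := LE0 hq
  refine ⟨a, ha, ?_⟩
  intro Ω _ P Λ h t ht0 htL
  obtain ⟨n, F, D, r, hF, hr, he⟩ := h
  have hm : ∫ ω, Λ ω ∂P = ∫ x, F x ∂(Measure.pi fun _ : Fin n => μ) := by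
    rw [← hr.map_eq, integral_map hr.measurable.aemeasurable hF.measF.aestronglyMeasurable]
    simp_rw [he]
  have hpsi : ∀ s : ℝ, psi P Λ s = psi (Measure.pi fun _ : Fin n => μ) F s := by
    intro s
    unfold psi
    congr 1
    rw [hm]
    set m := ∫ x, F x ∂(Measure.pi fun _ : Fin n => μ)
    have h1 : Measurable fun x : Fin n → ℝ => Real.exp (s * (F x - m)) :=
      Real.measurable_exp.comp ((hF.measF.sub_const m).const_mul s)
    rw [← hr.map_eq, integral_map hr.measurable.aemeasurable h1.aestronglyMeasurable]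
    simp_rw [he]
  rw [hpsi, hpsi]
  exact hLE n F D hF t ht0 htL

/-- The log-Laplace transform in terms of the moments. -/
lemma psi_eq0 (hμ : EM μ) (h : IsP0 P μ Λ) {t : ℝ} (ht : 0 ≤ t) :
    psi P Λ t = Real.log (∫ ω, Real.exp (t * Λ ω) ∂P) - t * ∫ ω, Λ ω ∂P := by
  have := h.prob
  unfold psi
  set m := ∫ ω, Λ ω ∂P
  have e1 : ∫ ω, Real.exp (t * (Λ ω - m)) ∂P = (∫ ω, Real.exp (t * Λ ω) ∂P) * Real.exp (-(t * m)) := by
    rw [← integral_mul_const]
    apply integral_congr_ae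
    filter_upwards with ω
    rw [← Real.exp_add]
    congr 1
    ring
  have hpos : 0 < ∫ ω, Real.exp (t * Λ ω) ∂P := integral_exp_pos (h.exp_int hμ ht)
  rw [e1, Real.log_mul hpos.ne' (Real.exp_pos _).ne', Real.log_exp]
  ring

/-- Moments of smaller order. -/
lemma moment_mono0 (hμ : EM μ) (h : IsP0 P μ Λ) {t t' M : ℝ} (ht : 0 < t) (htt : t ≤ t')
    (hM : ∫ ω, Real.exp (t' * Λ ω) ∂P ≤ Real.exp M) : ∫ ω, Real.exp (t * Λ ω) ∂P ≤ Real.exp (t / t' * M) := by
  have := h.prob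
  have ht' : 0 < t' := lt_of_lt_of_le ht htt
  set θ := t / t' with hθ
  have hθ0 : 0 < θ := by positivity
  have hθ1 : θ ≤ 1 := by
    rw [hθ, div_le_one ht']
    exact htt
  have h1 : ∀ ω, Real.exp (t * Λ ω) ≤
      Real.exp (θ * M) * (θ * (Real.exp (t' * Λ ω) * Real.exp (-M)) + (1 - θ)) := by
    intro ω
    set u := t' * Λ ω with hu
    have h2 := convexOn_exp.2 (mem_univ (u - M)) (mem_univ (0 : ℝ)) hθ0.le (by linarith : (0 : ℝ) ≤ 1 - θ)
      (by ring)
    simp only [smul_eq_mul, mul_zero, add_zero, Real.exp_zero, mul_one] at h2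
    have h3 : Real.exp (t * Λ ω) = Real.exp (θ * M) * Real.exp (θ * (u - M)) := by
      rw [← Real.exp_add]
      congr 1
      rw [hu, hθ]
      field_simp
      ring
    have h4 : Real.exp (u - M) = Real.exp u * Real.exp (-M) := by
      rw [← Real.exp_add]
      congr 1
    rw [h3, ← h4]
    exact mul_le_mul_of_nonneg_left h2 (Real.exp_pos _).le
  have i1 := h.exp_int hμ ht.le
  have i2 := h.exp_int hμ ht'.le
  have h5 : ∫ ω, Real.exp (t * Λ ω) ∂P ≤
      ∫ ω, Real.exp (θ * M) * (θ * (Real.exp (t' * Λ ω) * Real.exp (-M)) + (1 - θ)) ∂P := by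
    apply integral_mono i1 _ h1
    exact ((((i2.mul_const _).const_mul θ).add (integrable_const _)).const_mul _)
  have i3 : Integrable (fun ω => θ * (Real.exp (t' * Λ ω) * Real.exp (-M))) P := (i2.mul_const _).const_mul θ
  rw [integral_const_mul, integral_add i3 (integrable_const _), integral_const_mul, integral_mul_const] at h5
  simp only [integral_const, probReal_univ, smul_eq_mul, one_mul] at h5
  refine h5.trans ?_
  have h6 : (∫ ω, Real.exp (t' * Λ ω) ∂P) * Real.exp (-M) ≤ 1 := by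
    have h7 := mul_le_mul_of_nonneg_right hM (Real.exp_pos (-M)).le
    have h8 : Real.exp M * Real.exp (-M) = 1 := by
      rw [← Real.exp_add]
      simp
    rwa [h8] at h7
  have h9 := Real.exp_pos (θ * M)
  nlinarith [mul_le_mul_of_nonneg_left h6 hθ0.le]

/-- EXPONENTIAL LOWER TAIL RELATIVE TO THE MEAN AT ZERO TEMPERATURE: an exponential bound of the luck `Λ` at the scale `1 / t1`
gives the moments of the orders `t ≤ κ t1` with the factor `exp (- t e / 2)`, `e = - E Λ` (of any sign). -/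
theorem LE0_tail {q : ℝ → ℝ} {L r₀ : ℝ} (hq : Qf μ q L r₀) : ∃ κ : ℝ, 0 < κ ∧ κ ≤ 1 ∧
    ∀ {Ω : Type} [MeasurableSpace Ω] (P : Measure Ω) (Λ : Ω → ℝ), IsP0 P μ Λ → ∀ t1 c1 : ℝ, 0 < t1 → t1 * L ≤ 1 →
    0 ≤ c1 → ∫ ω, Real.exp (t1 * Λ ω) ∂P ≤ Real.exp c1 → ∀ t : ℝ, 0 < t → t ≤ κ * t1 →
    ∫ ω, Real.exp (t * Λ ω) ∂P ≤ Real.exp c1 * Real.exp (-(t * (-∫ ω, Λ ω ∂P) / 2)) := by
  have hμ := hq.em
  have hL0 := hq.L0
  obtain ⟨a, ha, hLE⟩ := LE0_env hq
  obtain ⟨k, hk⟩ : ∃ k : ℕ, (2 / (2 + a)) ^ k < 1 / 2 := by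
    apply exists_pow_lt_of_lt_one (by norm_num)
    rw [div_lt_one (by positivity)]
    linarith
  refine ⟨1 / 2 ^ k, by positivity, ?_, ?_⟩
  · rw [div_le_one (by positivity)]
    exact one_le_pow₀ (by norm_num)
  intro Ω _ P Λ h t1 c1 ht0 ht1 hc1 hmom t ht htt
  have := h.prob
  have ht' : 0 < t1 / 2 ^ k := by positivity
  have htt' : t ≤ t1 / 2 ^ k := by
    refine htt.trans (le_of_eq ?_)
    ring
  have htt1 : t ≤ t1 := by
    refine htt'.trans (div_le_self ht0.le ?_)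
    exact one_le_pow₀ (by norm_num)
  set m := ∫ ω, Λ ω ∂P with hm
  rcases le_total 0 m with hm0 | hm0
  · -- nonnegative mean
    have h1 := moment_mono0 hμ h ht htt1 hmom
    refine h1.trans ?_
    rw [← Real.exp_add]
    apply Real.exp_le_exp.2
    have h2 : t / t1 ≤ 1 := by
      rw [div_le_one ht0]
      exact htt1
    have h3 : t / t1 * c1 ≤ 1 * c1 := mul_le_mul_of_nonneg_right h2 hc1
    have h4 := mul_nonneg ht.le hm0
    linarith
  have he : 0 ≤ -m := by linarith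
  set ψ := psi P Λ with hψ
  have hiter : ∀ j : ℕ, (2 + a) ^ j * ψ (t1 / 2 ^ j) ≤ ψ t1 := by
    intro j
    induction j with
    | zero => simp
    | succ j ih =>
      refine le_trans ?_ ih
      have h1 := hLE P Λ h (t1 / 2 ^ (j + 1)) (by positivity) (by
        have h2 : t1 / 2 ^ (j + 1) ≤ t1 := div_le_self ht0.le (one_le_pow₀ (by norm_num))
        exact (mul_le_mul_of_nonneg_right h2 hL0.le).trans ht1)
      have h2 : 2 * (t1 / 2 ^ (j + 1)) = t1 / 2 ^ j := by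
        rw [pow_succ]
        field_simp
      rw [h2] at h1
      have h3 := mul_le_mul_of_nonneg_left h1 (by positivity : (0 : ℝ) ≤ (2 + a) ^ j)
      refine le_trans (le_of_eq ?_) h3
      rw [pow_succ]
      ring
  have hpos1 : 0 < ∫ ω, Real.exp (t1 * Λ ω) ∂P := integral_exp_pos (h.exp_int hμ ht0.le)
  have hpos2 : 0 < ∫ ω, Real.exp (t1 / 2 ^ k * Λ ω) ∂P := integral_exp_pos (h.exp_int hμ ht'.le)
  have h1 : ψ t1 ≤ c1 + t1 * (-m) := by
    rw [hψ, psi_eq0 hμ h ht0.le]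
    have h2 := Real.log_le_log hpos1 hmom
    rw [Real.log_exp] at h2
    linarith
  have h2 := hiter k
  have hpk : (0 : ℝ) < (2 + a) ^ k := by positivity
  have h3 : ψ (t1 / 2 ^ k) ≤ c1 + t1 / 2 ^ k * (-m) / 2 := by
    have h4 : (2 + a) ^ k * ψ (t1 / 2 ^ k) ≤ c1 + t1 * (-m) := h2.trans h1
    have h5 : (2 : ℝ) ^ k ≤ (2 + a) ^ k / 2 := by
      rw [div_pow, div_lt_iff₀ hpk] at hk
      linarith
    have h6 : c1 ≤ (2 + a) ^ k * c1 := by
      have : (1 : ℝ) ≤ (2 + a) ^ k := one_le_pow₀ (by linarith)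
      nlinarith
    have h7 : t1 * (-m) ≤ (2 + a) ^ k * (t1 / 2 ^ k * (-m) / 2) := by
      have h8 : t1 * (-m) = 2 ^ k * (t1 / 2 ^ k * (-m)) := by
        field_simp
      have h9 : (2 + a) ^ k * (t1 / 2 ^ k * (-m) / 2) = ((2 + a) ^ k / 2) * (t1 / 2 ^ k * (-m)) := by ring
      rw [h8, h9]
      exact mul_le_mul_of_nonneg_right h5 (mul_nonneg ht'.le he)
    have h10 : (2 + a) ^ k * ψ (t1 / 2 ^ k) ≤ (2 + a) ^ k * (c1 + t1 / 2 ^ k * (-m) / 2) := by
      rw [mul_add]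
      linarith
    exact le_of_mul_le_mul_left h10 hpk
  rw [hψ, psi_eq0 hμ h ht'.le] at h3
  have h4 : Real.log (∫ ω, Real.exp (t1 / 2 ^ k * Λ ω) ∂P) ≤ c1 + -(t1 / 2 ^ k * (-m) / 2) := by linarith
  rw [Real.log_le_iff_le_exp hpos2] at h4
  have h5 := moment_mono0 hμ h ht htt' h4
  refine h5.trans ?_
  rw [← Real.exp_add]
  apply Real.exp_le_exp.2
  have h6 : t / (t1 / 2 ^ k) * (c1 + -(t1 / 2 ^ k * (-m) / 2)) = t / (t1 / 2 ^ k) * c1 + -(t * (-m) / 2) := by
    field_simp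
  rw [h6]
  have h7 : t / (t1 / 2 ^ k) ≤ 1 := by
    rw [div_le_one ht']
    exact htt'
  have h8 : t / (t1 / 2 ^ k) * c1 ≤ 1 * c1 := mul_le_mul_of_nonneg_right h7 hc1
  linarith

/-- The tail in probability. -/
theorem LE0_prob {q : ℝ → ℝ} {L r₀ : ℝ} (hq : Qf μ q L r₀) : ∃ κ : ℝ, 0 < κ ∧ κ ≤ 1 ∧
    ∀ {Ω : Type} [MeasurableSpace Ω] (P : Measure Ω) (Λ : Ω → ℝ), IsP0 P μ Λ → ∀ t1 c1 : ℝ, 0 < t1 → t1 * L ≤ 1 →
    0 ≤ c1 → ∫ ω, Real.exp (t1 * Λ ω) ∂P ≤ Real.exp c1 → ∀ y : ℝ,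
    P.real {ω | -y ≤ Λ ω} ≤ Real.exp (c1 + κ * t1 * y - κ * t1 * (-∫ ω, Λ ω ∂P) / 2) := by
  have hμ := hq.em
  obtain ⟨κ, hκ0, hκ1, hκ⟩ := LE0_tail hq
  refine ⟨κ, hκ0, hκ1, ?_⟩
  intro Ω _ P Λ h t1 c1 ht0 ht1 hc1 hmom y
  have := h.prob
  have ht : 0 < κ * t1 := by positivity
  have h1 := hκ P Λ h t1 c1 ht0 ht1 hc1 hmom (κ * t1) ht le_rfl
  have h2 : P.real {ω | -y ≤ Λ ω} * Real.exp (κ * t1 * (-y)) ≤ ∫ ω, Real.exp (κ * t1 * Λ ω) ∂P := by
    have hS : MeasurableSet {ω | -y ≤ Λ ω} := measurableSet_le measurable_const h.meas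
    have h3 : ∫ ω, {ω | -y ≤ Λ ω}.indicator (fun _ => Real.exp (κ * t1 * (-y))) ω ∂P ≤
        ∫ ω, Real.exp (κ * t1 * Λ ω) ∂P := by
      apply integral_mono ((integrable_const _).indicator hS) (h.exp_int hμ ht.le)
      intro ω
      by_cases hω : ω ∈ {ω | -y ≤ Λ ω}
      · rw [indicator_of_mem hω]
        exact Real.exp_le_exp.2 (mul_le_mul_of_nonneg_left hω ht.le)
      · rw [indicator_of_notMem hω]
        exact (Real.exp_pos _).le
    rw [integral_indicator hS, setIntegral_const, smul_eq_mul] at h3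
    exact h3
  have h4 := h2.trans h1
  rw [← le_div_iff₀ (Real.exp_pos _), ← Real.exp_add, ← Real.exp_sub] at h4
  refine h4.trans (le_of_eq ?_)
  congr 1
  ring

/-! ### Maxima of finitely many affine functions -/

variable {n m : ℕ}

/-- The maximum of the affine functions `c k + ∑ i, A k i * x i`. -/
def Mx (c : Fin (m + 1) → ℝ) (A : Fin (m + 1) → Fin n → ℝ) (x : Fin n → ℝ) : ℝ :=
  Finset.univ.sup' Finset.univ_nonempty fun k => c k + ∑ i, A k i * x i

/-- The points where `k` is the first index of the maximum. -/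
def Ax (c : Fin (m + 1) → ℝ) (A : Fin (m + 1) → Fin n → ℝ) (k : Fin (m + 1)) : Set (Fin n → ℝ) :=
  {x | (∀ j, c j + ∑ i, A j i * x i ≤ c k + ∑ i, A k i * x i) ∧
    ∀ j, j < k → c j + ∑ i, A j i * x i < c k + ∑ i, A k i * x i}

/-- The subgradient of the first maximal function. -/
def Dx (c : Fin (m + 1) → ℝ) (A : Fin (m + 1) → Fin n → ℝ) (i : Fin n) (x : Fin n → ℝ) : ℝ :=
  ∑ k, (Ax c A k).indicator (fun _ => A k i) x

lemma le_Mx (c : Fin (m + 1) → ℝ) (A : Fin (m + 1) → Fin n → ℝ) (k : Fin (m + 1)) (x : Fin n → ℝ) :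
    c k + ∑ i, A k i * x i ≤ Mx c A x :=
  Finset.le_sup' (fun k => c k + ∑ i, A k i * x i) (Finset.mem_univ k)

lemma exists_Ax (c : Fin (m + 1) → ℝ) (A : Fin (m + 1) → Fin n → ℝ) (x : Fin n → ℝ) :
    ∃ k, x ∈ Ax c A k ∧ Mx c A x = c k + ∑ i, A k i * x i ∧ ∀ i, Dx c A i x = A k i := by
  classical
  obtain ⟨k₀, _, hk₀⟩ := Finset.exists_mem_eq_sup' (Finset.univ_nonempty (α := Fin (m + 1)))
    fun k => c k + ∑ i, A k i * x i
  set S : Finset (Fin (m + 1)) := Finset.univ.filter fun k => Mx c A x = c k + ∑ i, A k i * x i with hS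
  have hne : S.Nonempty := ⟨k₀, by rw [hS, Finset.mem_filter]; exact ⟨Finset.mem_univ _, hk₀⟩⟩
  set k := S.min' hne with hk
  have hkS : k ∈ S := S.min'_mem hne
  have hk1 : Mx c A x = c k + ∑ i, A k i * x i := by
    rw [hS, Finset.mem_filter] at hkS
    exact hkS.2
  have hmem : x ∈ Ax c A k := by
    refine ⟨fun j => ?_, fun j hj => ?_⟩
    · rw [← hk1]
      exact le_Mx c A j x
    · rw [← hk1]
      refine lt_of_le_of_ne (le_Mx c A j x) fun h => ?_
      have h1 : j ∈ S := by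
        rw [hS, Finset.mem_filter]
        exact ⟨Finset.mem_univ _, h.symm⟩
      exact absurd (S.min'_le j h1) (not_le.2 hj)
  refine ⟨k, hmem, hk1, fun i => ?_⟩
  unfold Dx
  rw [Finset.sum_eq_single k]
  · exact indicator_of_mem hmem _
  · intro j _ hj
    apply indicator_of_notMem
    intro hjm
    rcases lt_or_gt_of_ne hj with h | h
    · have h1 := hmem.2 j h
      have h2 := hjm.1 k
      linarith
    · have h1 := hjm.2 k h
      have h2 := hmem.1 j
      linarith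
  · intro h
    exact absurd (Finset.mem_univ k) h

/-- Maxima of affine functions with coefficients in `[0, 1]` are in the class. -/
theorem Pot0_Mx {c : Fin (m + 1) → ℝ} {A : Fin (m + 1) → Fin n → ℝ} (h0 : ∀ k i, 0 ≤ A k i) (h1 : ∀ k i, A k i ≤ 1) :
    Pot0 (Mx c A) (Dx c A) := by
  have hm : ∀ k, Measurable fun x : Fin n → ℝ => c k + ∑ i, A k i * x i := fun k => by fun_prop
  refine ⟨?_, fun i => ?_, fun i x => ?_, fun i x => ?_, fun x a => ?_⟩
  · have e : Mx c A = fun x => Finset.univ.sup' Finset.univ_nonempty fun k => (fun x : Fin n → ℝ => c k + ∑ i, A k i * x i) x :=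
      rfl
    have h2 := Finset.measurable_sup' (Finset.univ_nonempty (α := Fin (m + 1)))
      (f := fun k (x : Fin n → ℝ) => c k + ∑ i, A k i * x i) fun k _ => hm k
    convert! h2 using 1
    funext x
    rw [Finset.sup'_apply]
    rfl
  · apply Finset.measurable_sum
    intro k _
    apply measurable_const.indicator
    have e : Ax c A k = (⋂ j, {x | c j + ∑ i, A j i * x i ≤ c k + ∑ i, A k i * x i}) ∩
        ⋂ j, ⋂ (_ : j < k), {x | c j + ∑ i, A j i * x i < c k + ∑ i, A k i * x i} := by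
      ext x
      simp [Ax]
    rw [e]
    exact (MeasurableSet.iInter fun j => measurableSet_le (hm j) (hm k)).inter
      (MeasurableSet.iInter fun j => MeasurableSet.iInter fun _ => measurableSet_lt (hm j) (hm k))
  · obtain ⟨k, _, _, hk⟩ := exists_Ax c A x
    rw [hk]
    exact h0 k i
  · obtain ⟨k, _, _, hk⟩ := exists_Ax c A x
    rw [hk]
    exact h1 k i
  · obtain ⟨k, _, hk, hd⟩ := exists_Ax c A x
    simp_rw [hd]
    rw [hk]
    refine le_trans (le_of_eq ?_) (le_Mx c A k a)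
    rw [add_assoc, ← Finset.sum_add_distrib]
    congr 1
    apply Finset.sum_congr rfl
    intro i _
    ring

end

end Pool.Agent.W_1b8d5d_LE
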